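import Pool.Agent.R620.RB.Defs

/-!
# Soundness
-/

set_option autoImplicit false

namespace Pool.Agent.R620.RB

variable {A : Type} [BooleanAlgebra A]

theorem Tm.val_congr {v w : ℕ → A} : ∀ (a : Tm), (∀ n, a.Occ n → v n = w n) → a.val v = a.val w
  | .var n, h => h n rfl
  | .zero, _ => rfl
  | .one, _ => rfl
  | .add a b, h => by
    simp only [Tm.val]
    rw [a.val_congr fun n hn => h n (Or.inl hn), b.val_congr fun n hn => h n (Or.inr hn)]
  | .mul a b, h => by
    simp only [Tm.val]
    rw [a.val_congr fun n hn => h n (Or.inl hn), b.val_congr fun n hn => h n (Or.inr hn)]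
  | .star a, h => by
    simp only [Tm.val]
    rw [a.val_congr h]

theorem Fm.holds_congr {C : A → A → Prop} {𝔅 : A → Prop} {v w : ℕ → A} :
    ∀ (φ : Fm), (∀ n, φ.Occ n → v n = w n) → (φ.Holds C 𝔅 v ↔ φ.Holds C 𝔅 w)
  | .le a b, h => by
    simp only [Fm.Holds]
    rw [a.val_congr fun n hn => h n (Or.inl hn), b.val_congr fun n hn => h n (Or.inr hn)]
  | .con a b, h => by
    simp only [Fm.Holds]
    rw [a.val_congr fun n hn => h n (Or.inl hn), b.val_congr fun n hn => h n (Or.inr hn)]
  | .bd a, h => by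
    simp only [Fm.Holds]
    rw [a.val_congr h]
  | .neg φ, h => by
    simp only [Fm.Holds]
    rw [φ.holds_congr h]
  | .and φ ψ, h => by
    simp only [Fm.Holds]
    rw [φ.holds_congr fun n hn => h n (Or.inl hn), ψ.holds_congr fun n hn => h n (Or.inr hn)]
  | .or φ ψ, h => by
    simp only [Fm.Holds]
    rw [φ.holds_congr fun n hn => h n (Or.inl hn), ψ.holds_congr fun n hn => h n (Or.inr hn)]
  | .imp φ ψ, h => by
    simp only [Fm.Holds]
    rw [φ.holds_congr fun n hn => h n (Or.inl hn), ψ.holds_congr fun n hn => h n (Or.inr hn)]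

theorem Tm.val_update {v : ℕ → A} (a : Tm) {p : ℕ} (h : ¬ a.Occ p) (x : A) :
    a.val (Function.update v p x) = a.val v :=
  a.val_congr fun n hn => Function.update_of_ne (fun e : n = p => h (e ▸ hn)) _ _

theorem Fm.holds_update {C : A → A → Prop} {𝔅 : A → Prop} {v : ℕ → A} (φ : Fm) {p : ℕ}
    (h : ¬ φ.Occ p) (x : A) : φ.Holds C 𝔅 (Function.update v p x) ↔ φ.Holds C 𝔅 v :=
  φ.holds_congr fun n hn => Function.update_of_ne (fun e : n = p => h (e ▸ hn)) _ _

theorem Fm.tv_holds (C : A → A → Prop) (𝔅 : A → Prop) (v : ℕ → A) : ∀ φ : Fm,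
    (φ.tv (fun a b => a.val v ≤ b.val v) (fun a b => C (a.val v) (b.val v))
      (fun a => 𝔅 (a.val v)) ↔ φ.Holds C 𝔅 v)
  | .le _ _ => Iff.rfl
  | .con _ _ => Iff.rfl
  | .bd _ => Iff.rfl
  | .neg φ => not_congr (φ.tv_holds C 𝔅 v)
  | .and φ ψ => and_congr (φ.tv_holds C 𝔅 v) (ψ.tv_holds C 𝔅 v)
  | .or φ ψ => or_congr (φ.tv_holds C 𝔅 v) (ψ.tv_holds C 𝔅 v)
  | .imp φ ψ => imp_congr (φ.tv_holds C 𝔅 v) (ψ.tv_holds C 𝔅 v)

theorem Fm.holds_eq {C : A → A → Prop} {𝔅 : A → Prop} {v : ℕ → A} {a b : Tm} :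
    (Fm.eq a b).Holds C 𝔅 v ↔ a.val v = b.val v :=
  ⟨fun h => le_antisymm h.1 h.2, fun h => ⟨h.le, h.ge⟩⟩

theorem sound {S : Sys} {φ : Fm} (h : Thm S φ) : Valid S φ := by
  intro A _ C 𝔅 hA hC
  induction h with
  | taut φ h => exact fun v => (φ.tv_holds C 𝔅 v).1 (h _ _ _)
  | mp φ ψ _ _ ih1 ih2 => exact fun v => ih1 v (ih2 v)
  | le_refl a => exact fun v => le_refl _
  | le_trans a b c => exact fun v h => le_trans h.1 h.2
  | zero_le a => exact fun v => bot_le
  | le_one a => exact fun v => le_top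
  | mul_le_left a b => exact fun v => inf_le_left
  | mul_le_right a b => exact fun v => inf_le_right
  | le_mul a b c => exact fun v h => le_inf h.1 h.2
  | le_add_left a b => exact fun v => le_sup_left
  | le_add_right a b => exact fun v => le_sup_right
  | add_le a b c => exact fun v h => sup_le h.1 h.2
  | distrib a b c => exact fun v => (inf_sup_left _ _ _).le
  | mul_star a => exact fun v => (inf_compl_self (a := a.val v)).le
  | add_star a => exact fun v => (sup_compl_eq_top (x := a.val v)).ge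
  | nondeg h => exact fun v h' => hC.nd h (le_antisymm bot_le h')
  | con_ne a b =>
    intro v h
    have := hA.con_ne _ _ h
    exact ⟨fun e => this.1 (Fm.holds_eq.1 e), fun e => this.2 (Fm.holds_eq.1 e)⟩
  | con_symm a b => exact fun v h => hA.con_symm _ _ h
  | con_add a b c => exact fun v h => (hA.con_sup _ _ _).1 h
  | con_add' a b c => exact fun v h => (hA.con_sup _ _ _).2 h
  | con_mono a b c =>
    intro v h
    have h2 : b.val v ⊔ c.val v = c.val v := sup_eq_right.2 h.2
    have h3 := (hA.con_sup (a.val v) (b.val v) (c.val v)).2 (Or.inl h.1)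
    rw [h2] at h3
    exact h3
  | con_of_mul a b =>
    intro v h
    exact hA.con_of_inf _ _ fun e => h (Fm.holds_eq.2 e)
  | bd_zero => exact fun v => hA.bd_bot
  | bd_mono a b => exact fun v h => hA.bd_mono _ _ h.2 h.1
  | bd_add a b => exact fun v h => hA.bd_sup _ _ h.1 h.2
  | bound1 φ a b p h1 h2 h3 _ ih =>
    intro v hφ hab
    obtain ⟨c, hc, hcb, hac⟩ := hA.bound1 _ _ hab
    have := ih (Function.update v p c) ((φ.holds_update h1 c).2 hφ)
    simp only [Fm.Holds, Tm.val, Function.update_self, a.val_update h2, b.val_update h3] at this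
    exact this ⟨hc, hcb⟩ hac
  | bound2 φ a p h1 h2 _ ih =>
    intro v hφ ha
    obtain ⟨c, hc, hac⟩ := hA.bound2 _ ha
    have := ih (Function.update v p c) ((φ.holds_update h1 c).2 hφ)
    simp only [Fm.Holds, Fm.ll, Tm.val, Function.update_self, a.val_update h2] at this
    exact this hc hac
  | con a h =>
    intro v h'
    exact hC.con h _ (fun e => h'.1 (Fm.holds_eq.2 e)) (fun e => h'.2 (Fm.holds_eq.2 e))
  | ext φ a p hS h1 h2 _ ih =>
    intro v hφ
    rw [Fm.holds_eq]
    by_contra hne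
    obtain ⟨c, hc, hac⟩ := hC.ext hS _ hne
    have := ih (Function.update v p c) ((φ.holds_update h1 c).2 hφ)
    simp only [Fm.Holds, Fm.holds_eq, Tm.val, Function.update_self, a.val_update h2] at this
    rcases this with h | h
    · exact hc h
    · exact hac h
  | nor φ a b p hS h1 h2 h3 _ ih =>
    intro v hφ
    by_contra hne
    obtain ⟨c, hc, hac⟩ := hC.nor hS _ _ hne
    have := ih (Function.update v p c) ((φ.holds_update h1 c).2 hφ)
    simp only [Fm.Holds, Tm.val, Function.update_self, a.val_update h2, b.val_update h3] at this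
    rcases this with h | h
    · exact hc h
    · exact hac h

end Pool.Agent.R620.RB
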