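import Pool.Agent.R620.RB.Fin
import Pool.Agent.R620.RB.Sound

/-!
# Completeness with respect to the finite models
-/

set_option autoImplicit false

namespace Pool.Agent.R620.RB

/-! ### Compactness -/

/-- truth values of the atomic formulas -/
abbrev Vl : Type := (Tm → Tm → Bool) × (Tm → Tm → Bool) × (Tm → Bool)

def Fm.tvb (x : Vl) : Fm → Bool
  | .le a b => x.1 a b
  | .con a b => x.2.1 a b
  | .bd a => x.2.2 a
  | .neg φ => !(φ.tvb x)
  | .and φ ψ => φ.tvb x && ψ.tvb x
  | .or φ ψ => φ.tvb x || ψ.tvb x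
  | .imp φ ψ => !(φ.tvb x) || ψ.tvb x

theorem continuous_tvb : ∀ φ : Fm, Continuous (fun x : Vl => φ.tvb x)
  | .le a b => by
    simp only [Fm.tvb]
    fun_prop
  | .con a b => by
    simp only [Fm.tvb]
    fun_prop
  | .bd a => by
    simp only [Fm.tvb]
    fun_prop
  | .neg φ => by
    simp only [Fm.tvb]
    exact (continuous_of_discreteTopology (f := Bool.not)).comp (continuous_tvb φ)
  | .and φ ψ => by
    simp only [Fm.tvb]
    exact (continuous_of_discreteTopology (f := fun p : Bool × Bool => p.1 && p.2)).comp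
      ((continuous_tvb φ).prodMk (continuous_tvb ψ))
  | .or φ ψ => by
    simp only [Fm.tvb]
    exact (continuous_of_discreteTopology (f := fun p : Bool × Bool => p.1 || p.2)).comp
      ((continuous_tvb φ).prodMk (continuous_tvb ψ))
  | .imp φ ψ => by
    simp only [Fm.tvb]
    exact (continuous_of_discreteTopology (f := fun p : Bool × Bool => !p.1 || p.2)).comp
      ((continuous_tvb φ).prodMk (continuous_tvb ψ))

theorem tvb_iff (x : Vl) : ∀ φ : Fm, φ.tvb x = true ↔
    φ.tv (fun a b => x.1 a b = true) (fun a b => x.2.1 a b = true) (fun a => x.2.2 a = true)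
  | .le _ _ => Iff.rfl
  | .con _ _ => Iff.rfl
  | .bd _ => Iff.rfl
  | .neg φ => by
    simp only [Fm.tvb, Fm.tv, Bool.not_eq_true', ← tvb_iff x φ, Bool.not_eq_true]
  | .and φ ψ => by
    simp only [Fm.tvb, Fm.tv, Bool.and_eq_true, tvb_iff x φ, tvb_iff x ψ]
  | .or φ ψ => by
    simp only [Fm.tvb, Fm.tv, Bool.or_eq_true, tvb_iff x φ, tvb_iff x ψ]
  | .imp φ ψ => by
    simp only [Fm.tvb, Fm.tv, Bool.or_eq_true, Bool.not_eq_true', ← tvb_iff x φ, ← tvb_iff x ψ]
    cases φ.tvb x <;> simp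

theorem tv_foldr (L C : Tm → Tm → Prop) (B : Tm → Prop) (φ : Fm) : ∀ l : List Fm,
    (l.foldr Fm.imp φ).tv L C B ↔ ((∀ ψ ∈ l, ψ.tv L C B) → φ.tv L C B)
  | [] => by simp
  | ψ :: l => by
    simp only [List.foldr_cons, Fm.tv, tv_foldr L C B φ l, List.forall_mem_cons]
    tauto

theorem thm_foldr {S : Sys} (φ : Fm) : ∀ l : List Fm, (∀ ψ ∈ l, Thm S ψ) →
    Thm S (l.foldr Fm.imp φ) → Thm S φ
  | [], _, h => h
  | ψ :: l, hl, h => thm_foldr φ l (fun χ hχ => hl χ (List.mem_cons_of_mem _ hχ))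
      (Thm.mp _ _ h (hl ψ List.mem_cons_self))

theorem exists_vl {S : Sys} {φ : Fm} (h : ¬ Thm S φ) :
    ∃ (L C : Tm → Tm → Prop) (B : Tm → Prop), (∀ ψ, Thm S ψ → ψ.tv L C B) ∧ ¬ φ.tv L C B := by
  classical
  obtain ⟨x, hx⟩ := CompactSpace.iInter_nonempty (X := Vl) (ι := {ψ : Fm // Thm S ψ})
    (t := fun ψ => {x | ψ.1.tvb x = true ∧ φ.tvb x = false})
    (fun ψ => (isClosed_discrete {true}).preimage (continuous_tvb ψ.1) |>.inter
      ((isClosed_discrete {false}).preimage (continuous_tvb φ)))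
    (by
      intro s
      by_contra hcon
      apply h
      refine thm_foldr φ (s.toList.map Subtype.val) ?_ (Thm.taut _ fun L C B => ?_)
      · intro ψ hψ
        obtain ⟨χ, -, rfl⟩ := List.mem_map.1 hψ
        exact χ.2
      · rw [tv_foldr]
        intro h1
        by_contra h2
        apply hcon
        refine ⟨(fun a b => decide (L a b), fun a b => decide (C a b), fun a => decide (B a)), ?_⟩
        simp only [Set.mem_iInter]
        intro ψ hψ
        refine ⟨?_, ?_⟩
        · rw [tvb_iff]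
          simpa using h1 ψ.1 (List.mem_map.2 ⟨ψ, Finset.mem_toList.2 hψ, rfl⟩)
        · rw [← Bool.not_eq_true, tvb_iff]
          simpa using h2)
  simp only [Set.mem_iInter] at hx
  refine ⟨_, _, _, fun ψ hψ => (tvb_iff x ψ).1 (hx ⟨ψ, hψ⟩).1, fun hφ => ?_⟩
  have h1 := (hx ⟨_, Thm.le_refl .zero⟩).2
  rw [(tvb_iff x φ).2 hφ] at h1
  exact absurd h1 (by simp)

/-! ### The quotient algebra -/

section Quot

variable (L : Tm → Tm → Prop)

structure BAx : Prop where
  refl : ∀ a, L a a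
  trans : ∀ a b c, L a b → L b c → L a c
  zero_le : ∀ a, L .zero a
  le_one : ∀ a, L a .one
  mulL : ∀ a b, L (.mul a b) a
  mulR : ∀ a b, L (.mul a b) b
  leMul : ∀ a b c, L c a → L c b → L c (.mul a b)
  addL : ∀ a b, L a (.add a b)
  addR : ∀ a b, L b (.add a b)
  addLe : ∀ a b c, L a c → L b c → L (.add a b) c
  distrib : ∀ a b c, L (.mul a (.add b c)) (.add (.mul a b) (.mul a c))
  mulStar : ∀ a, L (.mul a (.star a)) .zero
  addStar : ∀ a, L .one (.add a (.star a))

variable {L}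

def sd (h : BAx L) : Setoid Tm where
  r a b := L a b ∧ L b a
  iseqv := ⟨fun a => ⟨h.refl a, h.refl a⟩, fun h => ⟨h.2, h.1⟩,
    fun h1 h2 => ⟨h.trans _ _ _ h1.1 h2.1, h.trans _ _ _ h2.2 h1.2⟩⟩

theorem BAx.mulMono (h : BAx L) {a a' b b' : Tm} (h1 : L a a') (h2 : L b b') :
    L (.mul a b) (.mul a' b') :=
  h.leMul _ _ _ (h.trans _ _ _ (h.mulL _ _) h1) (h.trans _ _ _ (h.mulR _ _) h2)

theorem BAx.addMono (h : BAx L) {a a' b b' : Tm} (h1 : L a a') (h2 : L b b') :
    L (.add a b) (.add a' b') :=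
  h.addLe _ _ _ (h.trans _ _ _ h1 (h.addL _ _)) (h.trans _ _ _ h2 (h.addR _ _))

theorem BAx.mul_star_le (h : BAx L) {a b : Tm} (h1 : L (.mul a (.star b)) .zero) : L a b := by
  -- `a ≤ a (b + b*) ≤ a b + a b* ≤ b`
  have h2 : L a (.mul a (.add b (.star b))) :=
    h.leMul _ _ _ (h.refl _) (h.trans _ _ _ (h.le_one _) (h.addStar _))
  refine h.trans _ _ _ h2 (h.trans _ _ _ (h.distrib _ _ _) (h.addLe _ _ _ (h.mulR _ _) ?_))
  exact h.trans _ _ _ h1 (h.zero_le _)

theorem BAx.starMono (h : BAx L) {a b : Tm} (h1 : L a b) : L (.star b) (.star a) := by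
  -- `b* ≤ b* (a + a*) ≤ b* a + b* a* ≤ a*`
  have h2 : L (.star b) (.mul (.star b) (.add a (.star a))) :=
    h.leMul _ _ _ (h.refl _) (h.trans _ _ _ (h.le_one _) (h.addStar _))
  refine h.trans _ _ _ h2 (h.trans _ _ _ (h.distrib _ _ _) (h.addLe _ _ _ ?_ (h.mulR _ _)))
  have h3 : L (.mul (.star b) a) (.mul b (.star b)) :=
    h.leMul _ _ _ (h.trans _ _ _ (h.mulR _ _) h1) (h.mulL _ _)
  exact h.trans _ _ _ (h.trans _ _ _ h3 (h.mulStar _)) (h.zero_le _)

/-- the quotient -/
def QA (h : BAx L) : Type := Quotient (sd h)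

def qm (h : BAx L) (a : Tm) : QA h := Quotient.mk (sd h) a

def qle (h : BAx L) : QA h → QA h → Prop :=
  Quotient.lift₂ L fun _ _ _ _ h1 h2 => propext
    ⟨fun h3 => h.trans _ _ _ h1.2 (h.trans _ _ _ h3 h2.1),
      fun h3 => h.trans _ _ _ h1.1 (h.trans _ _ _ h3 h2.2)⟩

def qsup (h : BAx L) : QA h → QA h → QA h :=
  Quotient.map₂ Tm.add fun _ _ h1 _ _ h2 => ⟨h.addMono h1.1 h2.1, h.addMono h1.2 h2.2⟩

def qinf (h : BAx L) : QA h → QA h → QA h :=
  Quotient.map₂ Tm.mul fun _ _ h1 _ _ h2 => ⟨h.mulMono h1.1 h2.1, h.mulMono h1.2 h2.2⟩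

def qcompl (h : BAx L) : QA h → QA h :=
  Quotient.map Tm.star fun _ _ h1 => ⟨h.starMono h1.2, h.starMono h1.1⟩

@[reducible] def QBA (h : BAx L) : BooleanAlgebra (QA h) where
  le := qle h
  le_refl a := Quotient.inductionOn a fun a => h.refl a
  le_trans a b c := Quotient.inductionOn₃ a b c fun a b c => h.trans a b c
  le_antisymm a b := Quotient.inductionOn₂ a b fun _ _ h1 h2 => Quotient.sound ⟨h1, h2⟩
  sup := qsup h
  inf := qinf h
  le_sup_left a b := Quotient.inductionOn₂ a b fun a b => h.addL a b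
  le_sup_right a b := Quotient.inductionOn₂ a b fun a b => h.addR a b
  sup_le a b c := Quotient.inductionOn₃ a b c fun a b c => h.addLe a b c
  inf_le_left a b := Quotient.inductionOn₂ a b fun a b => h.mulL a b
  inf_le_right a b := Quotient.inductionOn₂ a b fun a b => h.mulR a b
  le_inf a b c := Quotient.inductionOn₃ a b c fun a b c h1 h2 => h.leMul b c a h1 h2
  le_sup_inf a b c := Quotient.inductionOn₃ a b c fun a b c => by
    -- `(a + b)(a + c) ≤ a + b c`
    refine h.trans _ _ _ (h.distrib _ _ _) (h.addLe _ _ _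
      (h.trans _ _ _ (h.mulR _ _) (h.addL _ _)) ?_)
    refine h.trans _ _ _ (h.leMul c (.add a b) _ (h.mulR _ _) (h.mulL _ _)) ?_
    refine h.trans _ _ _ (h.distrib _ _ _) (h.addLe _ _ _
      (h.trans _ _ _ (h.mulR _ _) (h.addL _ _)) ?_)
    exact h.trans _ _ _ (h.leMul b c _ (h.mulR _ _) (h.mulL _ _)) (h.addR _ _)
  top := qm h .one
  bot := qm h .zero
  le_top a := Quotient.inductionOn a fun a => h.le_one a
  bot_le a := Quotient.inductionOn a fun a => h.zero_le a
  compl := qcompl h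
  inf_compl_le_bot a := Quotient.inductionOn a fun a => h.mulStar a
  top_le_sup_compl a := Quotient.inductionOn a fun a => h.addStar a

end Quot

/-- an upper bound for the variables -/
def Tm.ub : Tm → ℕ
  | .var n => n + 1
  | .zero => 0
  | .one => 0
  | .add a b => max a.ub b.ub
  | .mul a b => max a.ub b.ub
  | .star a => a.ub

theorem Tm.lt_ub : ∀ (a : Tm) (i : ℕ), a.Occ i → i < a.ub
  | .var n, i, h => by
    simp only [Tm.Occ] at h
    subst h
    exact Nat.lt_succ_self _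
  | .zero, _, h => h.elim
  | .one, _, h => h.elim
  | .add a b, i, h => by
    rcases h with h | h
    · exact lt_of_lt_of_le (a.lt_ub i h) (le_max_left _ _)
    · exact lt_of_lt_of_le (b.lt_ub i h) (le_max_right _ _)
  | .mul a b, i, h => by
    rcases h with h | h
    · exact lt_of_lt_of_le (a.lt_ub i h) (le_max_left _ _)
    · exact lt_of_lt_of_le (b.lt_ub i h) (le_max_right _ _)
  | .star a, i, h => a.lt_ub i h

/-- an upper bound for the variables -/
def Fm.ub : Fm → ℕ
  | .le a b => max a.ub b.ub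
  | .con a b => max a.ub b.ub
  | .bd a => a.ub
  | .neg φ => φ.ub
  | .and φ ψ => max φ.ub ψ.ub
  | .or φ ψ => max φ.ub ψ.ub
  | .imp φ ψ => max φ.ub ψ.ub

theorem Fm.lt_ub : ∀ (φ : Fm) (i : ℕ), φ.Occ i → i < φ.ub
  | .le a b, i, h => by
    rcases h with h | h
    · exact lt_of_lt_of_le (a.lt_ub i h) (le_max_left _ _)
    · exact lt_of_lt_of_le (b.lt_ub i h) (le_max_right _ _)
  | .con a b, i, h => by
    rcases h with h | h
    · exact lt_of_lt_of_le (a.lt_ub i h) (le_max_left _ _)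
    · exact lt_of_lt_of_le (b.lt_ub i h) (le_max_right _ _)
  | .bd a, i, h => a.lt_ub i h
  | .neg φ, i, h => φ.lt_ub i h
  | .and φ ψ, i, h => by
    rcases h with h | h
    · exact lt_of_lt_of_le (φ.lt_ub i h) (le_max_left _ _)
    · exact lt_of_lt_of_le (ψ.lt_ub i h) (le_max_right _ _)
  | .or φ ψ, i, h => by
    rcases h with h | h
    · exact lt_of_lt_of_le (φ.lt_ub i h) (le_max_left _ _)
    · exact lt_of_lt_of_le (ψ.lt_ub i h) (le_max_right _ _)
  | .imp φ ψ, i, h => by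
    rcases h with h | h
    · exact lt_of_lt_of_le (φ.lt_ub i h) (le_max_left _ _)
    · exact lt_of_lt_of_le (ψ.lt_ub i h) (le_max_right _ _)

/-- Completeness with respect to the finite models. -/
theorem thm_of_cs {S : Sys} {φ : Fm} (n : ℕ) (hn : ∀ i, φ.Occ i → i < n)
    (h : ∀ (m : ℕ → Prop) (e : ℕ → ℕ → Prop) (u : ℕ → Prop), OK S (2 ^ n) m e →
      φ.cs (2 ^ n) m e u) : Thm S φ := by
  classical
  by_contra hcon
  obtain ⟨L, C, B, h1, h2⟩ := exists_vl hcon
  have hb : BAx L :=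
    { refl := fun a => h1 _ (Thm.le_refl a)
      trans := fun a b c x y => h1 _ (Thm.le_trans a b c) ⟨x, y⟩
      zero_le := fun a => h1 _ (Thm.zero_le a)
      le_one := fun a => h1 _ (Thm.le_one a)
      mulL := fun a b => h1 _ (Thm.mul_le_left a b)
      mulR := fun a b => h1 _ (Thm.mul_le_right a b)
      leMul := fun a b c x y => h1 _ (Thm.le_mul a b c) ⟨x, y⟩
      addL := fun a b => h1 _ (Thm.le_add_left a b)
      addR := fun a b => h1 _ (Thm.le_add_right a b)
      addLe := fun a b c x y => h1 _ (Thm.add_le a b c) ⟨x, y⟩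
      distrib := fun a b c => h1 _ (Thm.distrib a b c)
      mulStar := fun a => h1 _ (Thm.mul_star a)
      addStar := fun a => h1 _ (Thm.add_star a) }
  let _ := QBA hb
  have hle : ∀ a b, qm hb a ≤ qm hb b ↔ L a b := fun a b => Iff.rfl
  have hsurj : ∀ x : QA hb, ∃ a, qm hb a = x := fun x => Quotient.exists_rep x
  choose r hr using hsurj
  have hC : ∀ a b a' b', L a a' → L b b' → C a b → C a' b' := by
    intro a b a' b' ha hb' hab
    have x1 : C a b' := h1 _ (Thm.con_mono a b b') ⟨hab, hb'⟩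
    have x2 : C b' a := h1 _ (Thm.con_symm a b') x1
    have x3 : C b' a' := h1 _ (Thm.con_mono b' a a') ⟨x2, ha⟩
    exact h1 _ (Thm.con_symm b' a') x3
  have hrL : ∀ a, L (r (qm hb a)) a ∧ L a (r (qm hb a)) := by
    intro a
    have : qm hb (r (qm hb a)) = qm hb a := hr _
    exact ⟨(hle _ _).1 this.le, (hle _ _).1 this.ge⟩
  let CA : QA hb → QA hb → Prop := fun x y => C (r x) (r y)
  let BA : QA hb → Prop := fun x => B (r x)
  have hCA : ∀ a b, CA (qm hb a) (qm hb b) ↔ C a b := fun a b =>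
    ⟨hC _ _ _ _ (hrL a).1 (hrL b).1, hC _ _ _ _ (hrL a).2 (hrL b).2⟩
  have hBm : ∀ a b, L a b → B b → B a := fun a b x y => h1 _ (Thm.bd_mono a b) ⟨y, x⟩
  have hBA : ∀ a, BA (qm hb a) ↔ B a := fun a =>
    ⟨hBm _ _ (hrL a).2, hBm _ _ (hrL a).1⟩
  have hsup : ∀ a b, qm hb a ⊔ qm hb b = qm hb (.add a b) := fun _ _ => rfl
  have hinf : ∀ a b, qm hb a ⊓ qm hb b = qm hb (.mul a b) := fun _ _ => rfl
  have hcompl : ∀ a, (qm hb a)ᶜ = qm hb (.star a) := fun _ => rfl
  have hbot : (⊥ : QA hb) = qm hb .zero := rfl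
  have htop : (⊤ : QA hb) = qm hb .one := rfl
  have heq : ∀ a b, qm hb a = qm hb b ↔ (Fm.eq a b).tv L C B := fun a b =>
    ⟨fun x => ⟨(hle _ _).1 x.le, (hle _ _).1 x.ge⟩, fun x => le_antisymm x.1 x.2⟩
  have hind : ∀ {Q : QA hb → Prop}, (∀ a, Q (qm hb a)) → ∀ x, Q x := by
    intro Q hQ x
    rw [← hr x]; exact hQ _
  have hpca : IsPCA CA BA := by
    refine ⟨?_, ?_, ?_, ?_, ?_, ?_, ?_, ?_⟩
    · intro x y
      revert x; refine hind fun a => ?_
      revert y; refine hind fun b => ?_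
      rw [hCA]
      intro hab
      have := h1 _ (Thm.con_ne a b) hab
      exact ⟨fun x => this.1 ((heq _ _).1 x), fun x => this.2 ((heq _ _).1 x)⟩
    · intro x y
      exact fun hab => h1 _ (Thm.con_symm _ _) hab
    · intro x y z
      revert x; refine hind fun a => ?_
      revert y; refine hind fun b => ?_
      revert z; refine hind fun c => ?_
      rw [hsup, hCA, hCA, hCA]
      exact fun hab => h1 _ (Thm.con_add a b c) hab
    · intro x y z
      revert x; refine hind fun a => ?_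
      revert y; refine hind fun b => ?_
      revert z; refine hind fun c => ?_
      rw [hCA, hCA]
      exact fun hab hbc => h1 _ (Thm.con_mono a b c) ⟨hab, hbc⟩
    · intro x y
      revert x; refine hind fun a => ?_
      revert y; refine hind fun b => ?_
      rw [hinf, hCA, hbot]
      exact fun hab => h1 _ (Thm.con_of_mul a b) fun x => hab ((heq _ _).2 x)
    · rw [hbot, hBA]
      exact h1 _ Thm.bd_zero
    · intro x y
      revert x; refine hind fun a => ?_
      revert y; refine hind fun b => ?_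
      rw [hBA, hBA]
      exact fun x y => hBm a b x y
    · intro x y
      revert x; refine hind fun a => ?_
      revert y; refine hind fun b => ?_
      rw [hsup, hBA, hBA, hBA]
      exact fun x y => h1 _ (Thm.bd_add a b) ⟨x, y⟩
  have hcon' : S.con → ∀ x : QA hb, x ≠ ⊥ → x ≠ ⊤ → CA x xᶜ := by
    intro hS
    refine hind fun a => ?_
    rw [hcompl, hCA, hbot, htop]
    intro x y
    exact h1 _ (Thm.con a hS) ⟨fun z => x ((heq _ _).2 z), fun z => y ((heq _ _).2 z)⟩
  have hnd : S.nd → (⊥ : QA hb) ≠ ⊤ := by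
    intro hS x
    exact h1 _ (Thm.nondeg hS) ((hle _ _).1 x.ge)
  -- the valuation
  let v : ℕ → QA hb := fun i => qm hb (.var i)
  have hval : ∀ a : Tm, a.val v = qm hb a := by
    intro a
    induction a with
    | var i => rfl
    | zero => rfl
    | one => rfl
    | add a b ih1 ih2 => simp only [Tm.val]; rw [ih1, ih2]; rfl
    | mul a b ih1 ih2 => simp only [Tm.val]; rw [ih1, ih2]; rfl
    | star a ih => simp only [Tm.val]; rw [ih]; rfl
  have hholds : ∀ ψ : Fm, ψ.Holds CA BA v ↔ ψ.tv L C B := by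
    intro ψ
    induction ψ with
    | le a b => simp only [Fm.Holds, Fm.tv]; rw [hval, hval]; exact hle a b
    | con a b => simp only [Fm.Holds, Fm.tv]; rw [hval, hval]; exact hCA a b
    | bd a => simp only [Fm.Holds, Fm.tv]; rw [hval]; exact hBA a
    | neg ψ ih => simp only [Fm.Holds, Fm.tv]; rw [ih]
    | and ψ χ ih1 ih2 => simp only [Fm.Holds, Fm.tv]; rw [ih1, ih2]
    | or ψ χ ih1 ih2 => simp only [Fm.Holds, Fm.tv]; rw [ih1, ih2]
    | imp ψ χ ih1 ih2 => simp only [Fm.Holds, Fm.tv]; rw [ih1, ih2]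
  apply h2
  rw [← hholds, cs_iff hpca v n φ hn]
  exact h _ _ _ (ok_of_pca hpca hcon' hnd v n)

/-- The theorems are the formulas valid in the local contact algebras. -/
theorem thm_iff_valid {S : Sys} {φ : Fm} : Thm S φ ↔ Valid S φ :=
  ⟨sound, fun h => thm_of_cs φ.ub φ.lt_ub fun m e u hok => cs_of_valid h _ m e u hok⟩

theorem thm_iff_cs {S : Sys} {φ : Fm} (n : ℕ) (hn : φ.ub ≤ n) : Thm S φ ↔
    ∀ (m : ℕ → Prop) (e : ℕ → ℕ → Prop) (u : ℕ → Prop), OK S (2 ^ n) m e →
      φ.cs (2 ^ n) m e u :=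
  ⟨fun h m e u hok => cs_of_valid (sound h) _ m e u hok,
    thm_of_cs n fun i hi => lt_of_lt_of_le (φ.lt_ub i hi) hn⟩

end Pool.Agent.R620.RB
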