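import Pool.Agent.R620.RB.Nodes
import Pool.Agent.R620.RB.Compl
import Pool.Agent.H877R3.HSC.Decode

/-!
# Validity in the finite models as a bounded arithmetical statement
-/

set_option autoImplicit false

namespace Pool.Agent.R620.RB

open Pool.Agent.H877R3.HSC (dig Bf exists_dig)

/-- the binary digit `i` of `c` is one -/
def bt (c i : ℕ) : Prop := dig c 2 i = 1

/-- the node `k` in the input -/
def ndx (x : List ℕ) (k : ℕ) : ℕ × ℕ × ℕ :=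
  (x.getD (2 + 3 * k) 0, x.getD (3 + 3 * k) 0, x.getD (4 + 3 * k) 0)

/-- the connectedness condition -/
def CNc (x : List ℕ) (M E : ℕ) : Prop :=
  ∀ s < 2 ^ (2 ^ x.getD 0 0), (∃ v < 2 ^ x.getD 0 0, bt M v ∧ bt s v) →
    (∃ w < 2 ^ x.getD 0 0, bt M w ∧ ¬ bt s w) →
    ∃ v < 2 ^ x.getD 0 0, ∃ w < 2 ^ x.getD 0 0, bt M v ∧ bt M w ∧ bt s v ∧ ¬ bt s w ∧
      bt E (v * 2 ^ x.getD 0 0 + w)

/-- nonemptiness -/
def CNd (x : List ℕ) (M : ℕ) : Prop := ∃ v < 2 ^ x.getD 0 0, bt M v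

/-- the criterion -/
def CN (con nd : Bool) (x : List ℕ) : Prop :=
  ∀ M < 2 ^ (2 ^ x.getD 0 0), ∀ E < 2 ^ (2 ^ x.getD 0 0 * 2 ^ x.getD 0 0),
  ∀ U < 2 ^ (2 ^ x.getD 0 0),
  (∀ v < 2 ^ x.getD 0 0, bt M v → bt E (v * 2 ^ x.getD 0 0 + v)) →
  (∀ v < 2 ^ x.getD 0 0, ∀ w < 2 ^ x.getD 0 0, bt M v → bt M w →
    bt E (v * 2 ^ x.getD 0 0 + w) → bt E (w * 2 ^ x.getD 0 0 + v)) →
  (con = true → CNc x M E) →
  (nd = true → CNd x M) →
  ∀ T < 2 ^ (x.getD 1 0 * 2 ^ x.getD 0 0),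
    (∀ k < x.getD 1 0, NC (2 ^ x.getD 0 0) (bt M) (fun v w => bt E (v * 2 ^ x.getD 0 0 + w))
      (bt U) (fun i v => bt T (i * 2 ^ x.getD 0 0 + v)) k (ndx x k)) →
    ∀ r < x.getD 1 0, r + 1 = x.getD 1 0 → bt T (r * 2 ^ x.getD 0 0)

end Pool.Agent.R620.RB

namespace Pool.Agent.R620.RBAr

open Pool.Agent.H877R3.HSC (Bf Tm dig)

def two : Tm := Tm.c 2
def N : Tm := Tm.pow two (Tm.inp (Tm.c 0))
def L : Tm := Tm.inp (Tm.c 1)
def b (c i : Tm) : Bf := Bf.eq (Tm.mod (Tm.div c (Tm.pow two i)) two) (Tm.c 1)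
def e2 (E v w : Tm) : Bf := b E (Tm.add (Tm.mul v N) w)
def iff (p q : Bf) : Bf := Bf.and (Bf.imp p q) (Bf.imp q p)
def or (p q : Bf) : Bf := Bf.imp (Bf.not p) q
def all (d : ℕ) (t : Tm) (p : Tm → Bf) : Bf := Bf.all t (p (Tm.v d))
def ex (d : ℕ) (t : Tm) (p : Tm → Bf) : Bf := Bf.ex t (p (Tm.v d))
def tag (k : Tm) : Tm := Tm.inp (Tm.add (Tm.c 2) (Tm.mul (Tm.c 3) k))
def ar1 (k : Tm) : Tm := Tm.inp (Tm.add (Tm.c 3) (Tm.mul (Tm.c 3) k))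
def ar2 (k : Tm) : Tm := Tm.inp (Tm.add (Tm.c 4) (Tm.mul (Tm.c 3) k))
/-- the entry `T k 0` -/
def t0 (T k : Tm) : Bf := b T (Tm.mul k N)

def nc (d : ℕ) (M E U T k : Tm) : Bf :=
  Bf.and (Bf.imp (Bf.eq (tag k) (Tm.c 0)) (all d N fun v => iff (e2 T k v) (b v (ar1 k))))
  (Bf.and (Bf.imp (Bf.eq (tag k) (Tm.c 1)) (all d N fun v => Bf.not (e2 T k v)))
  (Bf.and (Bf.imp (Bf.eq (tag k) (Tm.c 2)) (all d N fun v => e2 T k v))
  (Bf.and (Bf.imp (Bf.eq (tag k) (Tm.c 3))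
    (all d N fun v => iff (e2 T k v) (or (e2 T (ar1 k) v) (e2 T (ar2 k) v))))
  (Bf.and (Bf.imp (Bf.eq (tag k) (Tm.c 4))
    (all d N fun v => iff (e2 T k v) (Bf.and (e2 T (ar1 k) v) (e2 T (ar2 k) v))))
  (Bf.and (Bf.imp (Bf.eq (tag k) (Tm.c 5))
    (all d N fun v => iff (e2 T k v) (Bf.not (e2 T (ar1 k) v))))
  (Bf.and (Bf.imp (Bf.eq (tag k) (Tm.c 6)) (iff (t0 T k)
    (all d N fun v => Bf.imp (b M v) (Bf.imp (e2 T (ar1 k) v) (e2 T (ar2 k) v)))))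
  (Bf.and (Bf.imp (Bf.eq (tag k) (Tm.c 7)) (iff (t0 T k)
    (ex d N fun v => ex (d + 1) N fun w => Bf.and (b M v) (Bf.and (b M w) (Bf.and (e2 E v w)
      (Bf.and (e2 T (ar1 k) v) (e2 T (ar2 k) w)))))))
  (Bf.and (Bf.imp (Bf.eq (tag k) (Tm.c 8)) (iff (t0 T k)
    (all d N fun v => Bf.imp (b M v) (Bf.imp (e2 T (ar1 k) v) (Bf.not (b U v))))))
  (Bf.and (Bf.imp (Bf.eq (tag k) (Tm.c 9)) (iff (t0 T k) (Bf.not (t0 T (ar1 k)))))
  (Bf.and (Bf.imp (Bf.eq (tag k) (Tm.c 10)) (iff (t0 T k)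
    (Bf.and (t0 T (ar1 k)) (t0 T (ar2 k)))))
  (Bf.and (Bf.imp (Bf.eq (tag k) (Tm.c 11)) (iff (t0 T k) (or (t0 T (ar1 k)) (t0 T (ar2 k)))))
  (Bf.imp (Bf.eq (tag k) (Tm.c 12)) (iff (t0 T k)
    (Bf.imp (t0 T (ar1 k)) (t0 T (ar2 k))))))))))))))))

def conn (M E : Tm) : Bf :=
  all 3 (Tm.pow two N) fun s => Bf.imp (ex 4 N fun v => Bf.and (b M v) (b s v))
    (Bf.imp (ex 4 N fun w => Bf.and (b M w) (Bf.not (b s w)))
    (ex 4 N fun v => ex 5 N fun w => Bf.and (b M v) (Bf.and (b M w) (Bf.and (b s v)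
      (Bf.and (Bf.not (b s w)) (e2 E v w))))))

def tru : Bf := Bf.eq (Tm.c 0) (Tm.c 0)

def crit (con nd : Bool) : Bf :=
  all 0 (Tm.pow two N) fun M => all 1 (Tm.pow two (Tm.mul N N)) fun E =>
  all 2 (Tm.pow two N) fun U =>
  Bf.imp (all 3 N fun v => Bf.imp (b M v) (e2 E v v))
  (Bf.imp (all 3 N fun v => all 4 N fun w => Bf.imp (b M v) (Bf.imp (b M w)
    (Bf.imp (e2 E v w) (e2 E w v))))
  (Bf.imp (cond con (conn M E) tru)
  (Bf.imp (cond nd (ex 3 N fun v => b M v) tru)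
  (all 3 (Tm.pow two (Tm.mul L N)) fun T => Bf.imp (all 4 L fun k => nc 5 M E U T k)
    (all 4 L fun r => Bf.imp (Bf.eq (Tm.add r (Tm.c 1)) L) (t0 T r))))))

section

variable (x e : List ℕ)

theorem holds_iff (p q : Bf) : (iff p q).holds x e ↔ (p.holds x e ↔ q.holds x e) :=
  iff_iff_implies_and_implies.symm

theorem holds_or (p q : Bf) : (or p q).holds x e ↔ (p.holds x e ∨ q.holds x e) :=
  or_iff_not_imp_left.symm

theorem holds_tru : tru.holds x e ↔ True := by simp [tru, Bf.holds]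

end

set_option maxRecDepth 100000 in
theorem crit_holds (con nd : Bool) (x : List ℕ) : (crit con nd).holds x [] ↔ RB.CN con nd x := by
  cases con <;> cases nd <;>
  simp only [crit, conn, nc, all, ex, tag, ar1, ar2, e2, b, N, L, two, t0, cond_true, cond_false,
    holds_iff, holds_or, holds_tru,
    Bf.holds, Tm.ev, List.nil_append, List.cons_append,
    List.getD_cons_zero, List.getD_cons_succ, Nat.reduceAdd, RB.CN, RB.CNc, RB.CNd, RB.NC, RB.ndx,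
    RB.bt, dig, add_zero, Bool.false_eq_true, false_implies, forall_true_left]

end Pool.Agent.R620.RBAr
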