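import Pool.Agent.R620.RB.Strip

/-!
# Finite models and their embedding in local contact algebras
-/

set_option autoImplicit false

namespace Pool.Agent.R620.RB

open TopologicalSpace Heyting Topology

/-- the atom `v` is below the value of the term; the atom `v` is below the variable `i` when the
`i`-th binary digit of `v` is one -/
def Tm.tb : Tm → ℕ → Prop
  | .var i, v => v / 2 ^ i % 2 = 1
  | .zero, _ => False
  | .one, _ => True
  | .add a b, v => a.tb v ∨ b.tb v
  | .mul a b, v => a.tb v ∧ b.tb v
  | .star a, v => ¬ a.tb v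

/-- truth in a finite model -/
def Fm.cs (N : ℕ) (m : ℕ → Prop) (e : ℕ → ℕ → Prop) (u : ℕ → Prop) : Fm → Prop
  | .le a b => ∀ v < N, m v → a.tb v → b.tb v
  | .con a b => ∃ v < N, ∃ w < N, m v ∧ m w ∧ e v w ∧ a.tb v ∧ b.tb w
  | .bd a => ∀ v < N, m v → a.tb v → ¬ u v
  | .neg φ => ¬ φ.cs N m e u
  | .and φ ψ => φ.cs N m e u ∧ ψ.cs N m e u
  | .or φ ψ => φ.cs N m e u ∨ ψ.cs N m e u
  | .imp φ ψ => φ.cs N m e u → ψ.cs N m e u

/-- the conditions on the finite models -/
structure OK (S : Sys) (N : ℕ) (m : ℕ → Prop) (e : ℕ → ℕ → Prop) : Prop where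
  refl : ∀ v < N, m v → e v v
  symm : ∀ v < N, ∀ w < N, m v → m w → e v w → e w v
  conn : S.con → ∀ s : ℕ → Prop, (∃ v < N, m v ∧ s v) → (∃ w < N, m w ∧ ¬ s w) →
    ∃ v < N, ∃ w < N, m v ∧ m w ∧ s v ∧ ¬ s w ∧ e v w
  nd : S.nd → ∃ v < N, m v

section Walk

variable {W : Type} {E : W → W → Prop}

theorem walk_path (hr : ∀ x, E x x) {a b : W} (h : Relation.ReflTransGen E a b) :
    ∃ (n : ℕ) (r : ℕ → W), r 0 = a ∧ (∀ i, E (r i) (r (i + 1))) ∧ ∀ i, n ≤ i → r i = b := by
  induction h with
  | refl => exact ⟨0, fun _ => a, rfl, fun _ => hr _, fun _ _ => rfl⟩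
  | @tail b c _ hbc ih =>
    obtain ⟨n, r, h0, h1, h2⟩ := ih
    refine ⟨n + 1, fun i => if i ≤ n then r i else c, by simp [h0], fun i => ?_, fun i hi => ?_⟩
    · by_cases h3 : i + 1 ≤ n
      · have : i ≤ n := by omega
        simp only [this, h3, if_true]
        exact h1 i
      · by_cases h4 : i ≤ n
        · have : i = n := by omega
          subst this
          simp only [le_refl, if_true, h3, if_false]
          rw [h2 i le_rfl]
          exact hbc
        · simp only [h3, h4, if_false]
          exact hr _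
    · have : ¬ i ≤ n := by omega
      simp [this]

theorem walk_all (hr : ∀ x, E x x) (hc : ∀ x y, Relation.ReflTransGen E x y) [Nonempty W]
    (L : List (W × W)) (hL : ∀ q ∈ L, E q.1 q.2) :
    ∃ (n : ℕ) (r : ℕ → W), (∀ i, E (r i) (r (i + 1))) ∧ (∀ i, n ≤ i → r i = r n) ∧
      ∀ q ∈ L, ∃ i, i + 1 ≤ n ∧ r i = q.1 ∧ r (i + 1) = q.2 := by
  induction L with
  | nil =>
    obtain ⟨x⟩ := ‹Nonempty W›
    exact ⟨0, fun _ => x, fun _ => hr _, fun _ _ => rfl, fun q hq => by simp at hq⟩
  | cons q L ih =>
    obtain ⟨n, r, h1, h2, h3⟩ := ih fun q hq => hL q (List.mem_cons_of_mem _ hq)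
    obtain ⟨k, r', k0, k1, k2⟩ := walk_path hr (hc (r n) q.1)
    have hq := hL q List.mem_cons_self
    -- the walk: `r` up to `n`, then `r'` up to `k`, then `q.2`
    refine ⟨n + k + 1, fun i => if i ≤ n then r i else if i ≤ n + k then r' (i - n) else q.2,
      fun i => ?_, fun i hi => ?_, ?_⟩
    · simp only
      by_cases c1 : i + 1 ≤ n
      · have c2 : i ≤ n := by omega
        simp only [c1, c2, if_true]
        exact h1 i
      · by_cases c2 : i ≤ n
        · have c3 : i = n := by omega
          subst c3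
          simp only [le_refl, if_true, c1, if_false]
          by_cases c4 : i + 1 ≤ i + k
          · simp only [c4, if_true]
            have : i + 1 - i = 0 + 1 := by omega
            rw [this]
            have := k1 0
            rwa [k0] at this
          · simp only [c4, if_false]
            have : k = 0 := by omega
            have e : r i = q.1 := by
              rw [← k0]; exact k2 0 (by omega)
            rw [e]; exact hq
        · simp only [c1, c2, if_false]
          by_cases c3 : i + 1 ≤ n + k
          · have c4 : i ≤ n + k := by omega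
            simp only [c3, c4, if_true]
            have : i + 1 - n = (i - n) + 1 := by omega
            rw [this]
            exact k1 _
          · simp only [c3, if_false]
            by_cases c4 : i ≤ n + k
            · simp only [c4, if_true]
              rw [k2 (i - n) (by omega)]
              exact hq
            · simp only [c4, if_false]
              exact hr _
    · have c1 : ¬ i ≤ n := by omega
      have c2 : ¬ i ≤ n + k := by omega
      have c3 : ¬ n + k + 1 ≤ n := by omega
      have c4 : ¬ n + k + 1 ≤ n + k := by omega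
      simp [c1, c2, c3, c4]
    · intro q' hq'
      rcases List.mem_cons.1 hq' with rfl | hq'
      · refine ⟨n + k, by omega, ?_, ?_⟩
        · by_cases c1 : n + k ≤ n
          · have : k = 0 := by omega
            subst this
            simp only [add_zero, le_refl, if_true]
            rw [← k0]; exact k2 0 le_rfl
          · simp only [c1, if_false, le_refl, if_true]
            exact k2 _ (by omega)
        · have c1 : ¬ n + k + 1 ≤ n := by omega
          have c2 : ¬ n + k + 1 ≤ n + k := by omega
          simp [c1, c2]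
      · obtain ⟨i, h6, h4, h5⟩ := h3 q' hq'
        refine ⟨i, by omega, ?_, ?_⟩
        · have : i ≤ n := by omega
          simp [this, h4]
        · simp [h6, h5]

end Walk

/-- A finite model is embedded in a local contact algebra. -/
theorem cs_of_valid {S : Sys} {φ : Fm} (h : Valid S φ) (N : ℕ) (m : ℕ → Prop) (e : ℕ → ℕ → Prop)
    (u : ℕ → Prop) (hok : OK S N m e) : φ.cs N m e u := by
  classical
  let W : Type := {v : ℕ // v < N ∧ m v}
  let E : W → W → Prop := fun x y => e x.1 y.1
  have hr : ∀ x, E x x := fun x => hok.refl _ x.2.1 x.2.2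
  have hs : ∀ x y, E x y → E y x := fun x y h => hok.symm _ x.2.1 _ y.2.1 x.2.2 y.2.2 h
  have hfin : Finite W := by
    have : Set.Finite {v : ℕ | v < N ∧ m v} := (Set.finite_lt_nat N).subset fun v hv => hv.1
    exact this.to_subtype
  -- the space
  obtain ⟨P, tP, dP, w, hw1, hw2, hP1, hP2⟩ : ∃ (P : Type) (_ : TopologicalSpace P)
      (_ : DiscreteTopology P) (w : P → ℤ → W), (∀ p i, E (w p i) (w p (i + 1))) ∧
      (∀ x y, E x y → ∃ p i, (w p i = x ∧ w p (i + 1) = y)) ∧ (S.con → Subsingleton P) ∧
      (Nonempty W → Nonempty P) := by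
    by_cases hcon : S.con
    · by_cases hne : Nonempty W
      · have hc : ∀ x y, Relation.ReflTransGen E x y := by
          intro x y
          by_contra hxy
          obtain ⟨v, hv, w, hw, mv, mw, ⟨hv', h1⟩, h2, h3⟩ := hok.conn hcon
            (fun z => ∃ hz : z < N ∧ m z, Relation.ReflTransGen E x ⟨z, hz⟩)
            ⟨x.1, x.2.1, x.2.2, x.2, Relation.ReflTransGen.refl⟩
            ⟨y.1, y.2.1, y.2.2, fun ⟨hz, h⟩ => hxy h⟩
          exact h2 ⟨⟨hw, mw⟩, h1.tail h3⟩
        have hfin2 : Finite (W × W) := inferInstance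
        obtain ⟨L, hL⟩ : ∃ L : List (W × W), ∀ q, E q.1 q.2 → q ∈ L := by
          have := Fintype.ofFinite (W × W)
          exact ⟨Finset.univ.toList, fun q _ => by simp⟩
        obtain ⟨n, r, h1, h2, h3⟩ := walk_all hr hc (L.filter fun q => decide (E q.1 q.2))
          (fun q hq => by simpa using (List.mem_filter.1 hq).2)
        refine ⟨Unit, inferInstance, inferInstance, fun _ i => r i.toNat, fun _ i => ?_,
          fun x y hxy => ?_, fun _ => inferInstance, fun _ => ⟨()⟩⟩
        · by_cases hi : 0 ≤ i
          · have : (i + 1).toNat = i.toNat + 1 := by omega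
            change E (r i.toNat) (r (i + 1).toNat)
            rw [this]; exact h1 _
          · have : (i + 1).toNat = i.toNat := by omega
            change E (r i.toNat) (r (i + 1).toNat)
            rw [this]; exact hr _
        · obtain ⟨i, -, h4, h5⟩ := h3 (x, y) (List.mem_filter.2 ⟨hL _ hxy, by simpa using hxy⟩)
          refine ⟨(), (i : ℤ), ?_, ?_⟩
          · simpa using h4
          · have : ((i : ℤ) + 1).toNat = i + 1 := by omega
            change r ((i : ℤ) + 1).toNat = y
            rw [this]; exact h5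
      · refine ⟨Empty, ⊥, ⟨rfl⟩, fun p => p.elim, fun p => p.elim, fun x => absurd ⟨x⟩ hne,
          fun _ => inferInstance, fun h => absurd h hne⟩
    · refine ⟨{q : W × W // E q.1 q.2}, ⊥, @DiscreteTopology.mk _ ⊥ rfl, fun p i => if i < 0 then p.1.1 else p.1.2,
        fun p i => ?_, fun x y hxy => ?_, fun h => absurd h hcon, fun ⟨x⟩ => ⟨⟨(x, x), hr x⟩⟩⟩
      · by_cases h1 : i + 1 < 0
        · have h2 : i < 0 := by omega
          simp only [h1, h2, if_true]
          exact hr _
        · by_cases h2 : i < 0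
          · simp only [h1, h2, if_true, if_false]
            exact p.2
          · simp only [h1, h2, if_false]
            exact hr _
      · refine ⟨⟨(x, y), hxy⟩, -1, ?_, ?_⟩ <;> simp
  have hw : ∀ x : W, ∃ p i, w p i = x := fun x => by
    obtain ⟨p, i, h, -⟩ := hw2 x x (hr x)
    exact ⟨p, i, h⟩
  let U : Set W := {x | u x.1}
  have hA := isLCA_RO (continuous_gg w U)
  have hC : S.Cond (CX (X := XP P)) := by
    refine ⟨fun hcon a h0 h1 => ?_, fun _ a ha => ext_RO a ha, fun _ a b hab => nor_RO a b hab,
      fun hnd h => ?_⟩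
    · have := hP1 hcon
      have : PreconnectedSpace (XP P) := by
        rcases isEmpty_or_nonempty P with hP | ⟨⟨p⟩⟩
        · refine ⟨?_⟩
          rw [Set.eq_empty_of_isEmpty (Set.univ : Set (XP P))]
          exact isPreconnected_empty
        · have : PreconnectedSpace P := inferInstance
          infer_instance
      exact con_RO a h0 h1
    · obtain ⟨v, hv, mv⟩ := hok.nd hnd
      obtain ⟨p⟩ := hP2 ⟨⟨v, hv, mv⟩⟩
      have h1 : (⊤ : RO (XP P)) ≠ ⊥ := st_ne.2 ⟨(p, 0, 0), trivial⟩
      exact h1 h.symm
  have key := h (RO (XP P)) CX (BX (gg w U)) hA hC (fun i => emb w {x | x.1 / 2 ^ i % 2 = 1})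
  have hval : ∀ a : Tm, a.val (fun i => emb w {x : W | x.1 / 2 ^ i % 2 = 1}) =
      emb w {x : W | a.tb x.1} := by
    intro a
    induction a with
    | var i => rfl
    | zero => exact (emb_empty w).symm
    | one => exact (emb_univ w).symm
    | add a b ih1 ih2 =>
      simp only [Tm.val]
      rw [ih1, ih2]
      exact (emb_union w _ _).symm
    | mul a b ih1 ih2 =>
      simp only [Tm.val]
      rw [ih1, ih2]
      exact (emb_inter w _ _).symm
    | star a ih =>
      simp only [Tm.val]
      rw [ih]
      exact (emb_compl w _).symm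
  have hiff : ∀ ψ : Fm, ψ.Holds CX (BX (gg w U)) (fun i => emb w {x : W | x.1 / 2 ^ i % 2 = 1}) ↔
      ψ.cs N m e u := by
    intro ψ
    induction ψ with
    | le a b =>
      simp only [Fm.Holds, Fm.cs]
      rw [hval, hval]
      refine (emb_le w hw).trans ⟨fun h v hv mv hav => ?_, fun h x hx => ?_⟩
      · exact @h ⟨v, hv, mv⟩ hav
      · exact h _ x.2.1 x.2.2 hx
    | con a b =>
      simp only [Fm.Holds, Fm.cs]
      rw [hval, hval, emb_con w hr hs hw1 hw2]
      constructor
      · rintro ⟨x, hx, y, hy, hxy⟩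
        exact ⟨_, x.2.1, _, y.2.1, x.2.2, y.2.2, hxy, hx, hy⟩
      · rintro ⟨v, hv, v', hv', mv, mv', h1, h2, h3⟩
        exact ⟨⟨v, hv, mv⟩, h2, ⟨v', hv', mv'⟩, h3, h1⟩
    | bd a =>
      simp only [Fm.Holds, Fm.cs]
      rw [hval, emb_bd w hw]
      constructor
      · intro h v hv mv hav
        exact h ⟨v, hv, mv⟩ hav
      · intro h x hx
        exact h _ x.2.1 x.2.2 hx
    | neg ψ ih => simp only [Fm.Holds, Fm.cs]; rw [ih]
    | and ψ χ ih1 ih2 => simp only [Fm.Holds, Fm.cs]; rw [ih1, ih2]
    | or ψ χ ih1 ih2 => simp only [Fm.Holds, Fm.cs]; rw [ih1, ih2]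
    | imp ψ χ ih1 ih2 => simp only [Fm.Holds, Fm.cs]; rw [ih1, ih2]
  exact (hiff φ).1 key

end Pool.Agent.R620.RB
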