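import Pool.Agent.R620.RB.Ar

/-!
# Decidability
-/

set_option autoImplicit false

namespace Pool.Agent.R620.RB

open Pool.Agent.H877R3.HSC (dig Bf exists_dig)

/-! ### The truth in a finite model depends only on the atoms below `N` -/

theorem cs_congr {N : ℕ} {m m' : ℕ → Prop} {e e' : ℕ → ℕ → Prop} {u u' : ℕ → Prop}
    (hm : ∀ v < N, (m v ↔ m' v)) (he : ∀ v < N, ∀ w < N, (e v w ↔ e' v w))
    (hu : ∀ v < N, (u v ↔ u' v)) : ∀ φ : Fm, φ.cs N m e u ↔ φ.cs N m' e' u'
  | .le a b => by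
    simp only [Fm.cs]
    refine forall_congr' fun v => forall_congr' fun hv => ?_
    rw [hm v hv]
  | .con a b => by
    simp only [Fm.cs]
    refine exists_congr fun v => and_congr_right fun hv => exists_congr fun w =>
      and_congr_right fun hw => ?_
    rw [hm v hv, hm w hw, he v hv w hw]
  | .bd a => by
    simp only [Fm.cs]
    refine forall_congr' fun v => forall_congr' fun hv => ?_
    rw [hm v hv, hu v hv]
  | .neg φ => by simp only [Fm.cs, cs_congr hm he hu φ]
  | .and φ ψ => by simp only [Fm.cs, cs_congr hm he hu φ, cs_congr hm he hu ψ]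
  | .or φ ψ => by simp only [Fm.cs, cs_congr hm he hu φ, cs_congr hm he hu ψ]
  | .imp φ ψ => by simp only [Fm.cs, cs_congr hm he hu φ, cs_congr hm he hu ψ]

/-! ### Coding of predicates -/

theorem exists_bt1 (N : ℕ) (p : ℕ → Prop) : ∃ c < 2 ^ N, ∀ v < N, (bt c v ↔ p v) := by
  classical
  obtain ⟨c, hc, h⟩ := exists_dig N 2 (fun v => if p v then 1 else 0)
    (fun i _ => by split_ifs <;> omega)
  refine ⟨c, hc, fun v hv => ?_⟩
  rw [bt, h v hv]
  by_cases hp : p v <;> simp [hp]

theorem exists_bt2 (L N : ℕ) (p : ℕ → ℕ → Prop) :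
    ∃ c < 2 ^ (L * N), ∀ i < L, ∀ v < N, (bt c (i * N + v) ↔ p i v) := by
  obtain ⟨c, hc, h⟩ := exists_bt1 (L * N) (fun k => p (k / N) (k % N))
  refine ⟨c, hc, fun i hi v hv => ?_⟩
  have hN : 0 < N := by omega
  have h1 : i * N + v < L * N := by
    calc i * N + v < i * N + N := by omega
      _ = (i + 1) * N := by ring
      _ ≤ L * N := Nat.mul_le_mul_right _ hi
  rw [h _ h1]
  have e1 : (i * N + v) / N = i := by
    rw [Nat.mul_comm, Nat.mul_add_div hN, Nat.div_eq_of_lt hv, add_zero]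
  have e2 : (i * N + v) % N = v := by
    rw [Nat.mul_comm, Nat.mul_add_mod, Nat.mod_eq_of_lt hv]
  simp only [e1, e2]

/-! ### The input -/

/-- the input list -/
def hdr (n : ℕ) (l : List (ℕ × ℕ × ℕ)) : List ℕ :=
  n :: l.length :: l.flatMap (fun q => [q.1, q.2.1, q.2.2])

theorem flat_getD (l : List (ℕ × ℕ × ℕ)) : ∀ (k : ℕ) (h : k < l.length),
    (l.flatMap (fun q => [q.1, q.2.1, q.2.2])).getD (3 * k) 0 = l[k].1 ∧
    (l.flatMap (fun q => [q.1, q.2.1, q.2.2])).getD (3 * k + 1) 0 = l[k].2.1 ∧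
    (l.flatMap (fun q => [q.1, q.2.1, q.2.2])).getD (3 * k + 2) 0 = l[k].2.2 := by
  induction l with
  | nil => intro k h; simp at h
  | cons q l ih =>
    intro k h
    cases k with
    | zero => simp
    | succ k =>
      have := ih k (by simpa using h)
      have e1 : 3 * (k + 1) = 3 * k + 1 + 1 + 1 := by ring
      have e2 : 3 * (k + 1) + 1 = 3 * k + 1 + 1 + 1 + 1 := by ring
      have e3 : 3 * (k + 1) + 2 = 3 * k + 2 + 1 + 1 + 1 := by ring
      rw [e3, e2, e1]
      simpa using this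

theorem ndx_hdr (n : ℕ) (l : List (ℕ × ℕ × ℕ)) (k : ℕ) (h : k < l.length) :
    ndx (hdr n l) k = l[k] := by
  obtain ⟨h1, h2, h3⟩ := flat_getD l k h
  have e1 : 2 + 3 * k = 3 * k + 1 + 1 := by ring
  have e2 : 3 + 3 * k = 3 * k + 1 + 1 + 1 := by ring
  have e3 : 4 + 3 * k = 3 * k + 2 + 1 + 1 := by ring
  simp only [ndx, hdr, e1, e2, e3, List.getD_cons_succ, h1, h2, h3]

theorem cn_iff (S : Sys) (con nd : Bool) (hcon : con = true ↔ S.con) (hnd : nd = true ↔ S.nd)
    (n : ℕ) (φ : Fm) : CN con nd (hdr n φ.code) ↔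
      ∀ (m : ℕ → Prop) (e : ℕ → ℕ → Prop) (u : ℕ → Prop), OK S (2 ^ n) m e →
        φ.cs (2 ^ n) m e u := by
  have x0 : (hdr n φ.code).getD 0 0 = n := rfl
  have hlen : φ.code.length = φ.size := φ.length_nodes 0
  have x1 : (hdr n φ.code).getD 1 0 = φ.size := hlen
  have hsz := φ.size_pos
  have hN : 0 < 2 ^ n := pow_pos (by norm_num) n
  unfold CN CNc CNd
  rw [x0, x1]
  generalize hNN : 2 ^ n = N at hN
  constructor
  · intro h m e u ok
    obtain ⟨M, hM, hM'⟩ := exists_bt1 N m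
    obtain ⟨E, hE, hE'⟩ := exists_bt2 N N e
    obtain ⟨U, hU, hU'⟩ := exists_bt1 N u
    rw [← cs_congr (N := N) (m := bt M) (e := fun v w => bt E (v * N + w)) (u := bt U) hM' hE' hU']
    obtain ⟨V, hV⟩ := exists_table hN (bt M) (fun v w => bt E (v * N + w)) (bt U) φ.code
      (φ.wfl 0)
    obtain ⟨T, hT, hT'⟩ := exists_bt2 φ.size N V
    have hwf := φ.wfl 0
    have key : Seg N (bt M) (fun v w => bt E (v * N + w)) (bt U) (fun i v => bt T (i * N + v)) 0
        φ.code := by
      intro r hr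
      have hr' : r < φ.size := by rw [← hlen]; exact hr
      refine nc_congr (V := V) (b := φ.size) hN (fun i hi v hv => (hT' i hi v hv).symm) (by omega) ?_ (hV r hr)
      intro h3
      have := hwf r hr h3
      exact ⟨by have := this.1; simp only [Fm.code]; omega,
        by have := this.2; simp only [Fm.code]; omega⟩
    have h1 := h M hM E hE U hU ?_ ?_ ?_ ?_ T hT ?_ (φ.size - 1) (by omega) (by omega)
    · have h2 := fm_root φ 0 key
      rw [zero_add] at h2
      exact h2.1 h1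
    · intro v hv hmv
      rw [hM' v hv] at hmv
      rw [hE' v hv v hv]
      exact ok.refl v hv hmv
    · intro v hv w hw h1 h2 h3
      rw [hM' v hv] at h1
      rw [hM' w hw] at h2
      rw [hE' v hv w hw] at h3
      rw [hE' w hw v hv]
      exact ok.symm v hv w hw h1 h2 h3
    · intro hc s _ ⟨v, hv, h1, h2⟩ ⟨w, hw, h3, h4⟩
      obtain ⟨v, hv, w, hw, k1, k2, k3, k4, k5⟩ := ok.conn (hcon.1 hc) (bt s)
        ⟨v, hv, (hM' v hv).1 h1, h2⟩ ⟨w, hw, (hM' w hw).1 h3, h4⟩
      exact ⟨v, hv, w, hw, (hM' v hv).2 k1, (hM' w hw).2 k2, k3, k4, (hE' v hv w hw).2 k5⟩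
    · intro hc
      obtain ⟨v, hv, h1⟩ := ok.nd (hnd.1 hc)
      exact ⟨v, hv, (hM' v hv).2 h1⟩
    · intro k hk
      rw [ndx_hdr n φ.code k (by rw [hlen]; exact hk)]
      have := key k (by rw [hlen]; exact hk)
      rwa [zero_add] at this
  · intro h M _ E _ U _ h1 h2 h3 h4 T _ h5 r hr hr'
    have key : Seg N (bt M) (fun v w => bt E (v * N + w)) (bt U) (fun i v => bt T (i * N + v)) 0
        φ.code := by
      intro r hr
      have := h5 r (by rw [← hlen]; exact hr)
      rw [ndx_hdr n φ.code r hr] at this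
      rwa [zero_add]
    have h6 := fm_root φ 0 key
    rw [zero_add] at h6
    have e1 : r = φ.size - 1 := by omega
    rw [e1]
    refine h6.2 (h _ _ _ ⟨h1, h2, ?_, fun hn => h4 (hnd.2 hn)⟩)
    intro hc s ⟨v, hv, k1, k2⟩ ⟨w, hw, k3, k4⟩
    obtain ⟨s', hs', hs⟩ := exists_bt1 N s
    obtain ⟨v, hv, w, hw, g1, g2, g3, g4, g5⟩ := h3 (hcon.2 hc) s' hs'
      ⟨v, hv, k1, (hs v hv).2 k2⟩ ⟨w, hw, k3, fun g => k4 ((hs w hw).1 g)⟩
    exact ⟨v, hv, w, hw, g1, g2, (hs v hv).1 g3, fun g => g4 ((hs w hw).2 g), g5⟩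

/-! ### The bound on the variables -/

/-- a bound on the variables, computed from the code -/
def bnd (l : List (ℕ × ℕ × ℕ)) : ℕ := l.foldl (fun s q => s + (q.2.1 + 1)) 0

theorem foldl_bnd (l : List (ℕ × ℕ × ℕ)) : ∀ s : ℕ,
    l.foldl (fun s q => s + (q.2.1 + 1)) s = s + bnd l := by
  unfold bnd
  induction l with
  | nil => intro s; rfl
  | cons q l ih =>
    intro s
    simp only [List.foldl_cons]
    rw [ih (s + (q.2.1 + 1)), ih (0 + (q.2.1 + 1))]
    ring

theorem bnd_append (l l' : List (ℕ × ℕ × ℕ)) : bnd (l ++ l') = bnd l + bnd l' := by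
  rw [bnd, List.foldl_append, foldl_bnd]
  rfl

theorem Tm.ub_le : ∀ (a : Tm) (k : ℕ), a.ub ≤ bnd (a.nodes k)
  | .var n, k => by simp [Tm.ub, Tm.nodes, bnd]
  | .zero, k => Nat.zero_le _
  | .one, k => Nat.zero_le _
  | .add a b, k => by
    have h1 := a.ub_le k
    have h2 := b.ub_le (k + a.size)
    simp only [Tm.ub, Tm.nodes, bnd_append]
    omega
  | .mul a b, k => by
    have h1 := a.ub_le k
    have h2 := b.ub_le (k + a.size)
    simp only [Tm.ub, Tm.nodes, bnd_append]
    omega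
  | .star a, k => by
    have h1 := a.ub_le k
    simp only [Tm.ub, Tm.nodes, bnd_append]
    omega

theorem Fm.ub_le : ∀ (a : Fm) (k : ℕ), a.ub ≤ bnd (a.nodes k)
  | .le a b, k => by
    have h1 := a.ub_le k
    have h2 := b.ub_le (k + a.size)
    simp only [Fm.ub, Fm.nodes, bnd_append]
    omega
  | .con a b, k => by
    have h1 := a.ub_le k
    have h2 := b.ub_le (k + a.size)
    simp only [Fm.ub, Fm.nodes, bnd_append]
    omega
  | .bd a, k => by
    have h1 := a.ub_le k
    simp only [Fm.ub, Fm.nodes, bnd_append]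
    omega
  | .neg a, k => by
    have h1 := a.ub_le k
    simp only [Fm.ub, Fm.nodes, bnd_append]
    omega
  | .and a b, k => by
    have h1 := a.ub_le k
    have h2 := b.ub_le (k + a.size)
    simp only [Fm.ub, Fm.nodes, bnd_append]
    omega
  | .or a b, k => by
    have h1 := a.ub_le k
    have h2 := b.ub_le (k + a.size)
    simp only [Fm.ub, Fm.nodes, bnd_append]
    omega
  | .imp a b, k => by
    have h1 := a.ub_le k
    have h2 := b.ub_le (k + a.size)
    simp only [Fm.ub, Fm.nodes, bnd_append]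
    omega

/-! ### The decision procedure -/

theorem primrec_bnd : Primrec bnd := by
  unfold bnd
  refine Primrec.list_foldl (f := fun l => l) (g := fun _ => 0)
    (h := fun _ (p : ℕ × (ℕ × ℕ × ℕ)) => p.1 + (p.2.2.1 + 1)) Primrec.id (Primrec.const 0) ?_
  exact Primrec.nat_add.comp (Primrec.fst.comp Primrec.snd)
    (Primrec.succ.comp (Primrec.fst.comp (Primrec.snd.comp (Primrec.snd.comp Primrec.snd))))

theorem primrec_hdr : Primrec (fun l : List (ℕ × ℕ × ℕ) => hdr (bnd l) l) := by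
  unfold hdr
  refine Primrec.list_cons.comp primrec_bnd (Primrec.list_cons.comp Primrec.list_length ?_)
  refine Primrec.list_flatMap Primrec.id ?_
  exact Primrec.list_cons.comp (Primrec.fst.comp Primrec.snd)
    (Primrec.list_cons.comp (Primrec.fst.comp (Primrec.snd.comp Primrec.snd))
      (Primrec.list_cons.comp (Primrec.snd.comp (Primrec.snd.comp Primrec.snd))
        (Primrec.const [])))

theorem decidable (S : Sys) : ∃ f : List (ℕ × ℕ × ℕ) → Bool, Primrec f ∧
    ∀ φ : Fm, f φ.code = true ↔ Thm S φ := by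
  classical
  have h1 := (RBAr.crit (decide S.con) (decide S.nd)).primrec.comp
    (primrec_hdr.pair (Primrec.const ([] : List ℕ)))
  obtain ⟨inst, h⟩ := h1
  refine ⟨_, h, fun φ => ?_⟩
  rw [decide_eq_true_iff, thm_iff_cs (bnd φ.code) (φ.ub_le 0),
    ← cn_iff S (decide S.con) (decide S.nd) decide_eq_true_iff decide_eq_true_iff,
    ← RBAr.crit_holds]

end Pool.Agent.R620.RB
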