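import Mathlib

/-!
# The region logics PWRCC-Bound and their extensions
-/

set_option autoImplicit false

namespace Pool.Agent.R620.RB

/-- Boolean terms. -/
inductive Tm : Type
  | var (n : ℕ) : Tm
  | zero : Tm
  | one : Tm
  | add (a b : Tm) : Tm
  | mul (a b : Tm) : Tm
  | star (a : Tm) : Tm

/-- Formulas: the atomic formulas are `a ≤ b`, `a C b` and `B(a)`. -/
inductive Fm : Type
  | le (a b : Tm) : Fm
  | con (a b : Tm) : Fm
  | bd (a : Tm) : Fm
  | neg (φ : Fm) : Fm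
  | and (φ ψ : Fm) : Fm
  | or (φ ψ : Fm) : Fm
  | imp (φ ψ : Fm) : Fm

/-- `a = b`, that is `a ≤ b ∧ b ≤ a`. -/
def Fm.eq (a b : Tm) : Fm := .and (.le a b) (.le b a)

/-- `a ≪ b`, that is `¬ (a C b*)`. -/
def Fm.ll (a b : Tm) : Fm := .neg (.con a (.star b))

/-- The variable `p` occurs in the term. -/
def Tm.Occ (p : ℕ) : Tm → Prop
  | .var n => n = p
  | .zero => False
  | .one => False
  | .add a b => a.Occ p ∨ b.Occ p
  | .mul a b => a.Occ p ∨ b.Occ p
  | .star a => a.Occ p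

/-- The variable `p` occurs in the formula. -/
def Fm.Occ (p : ℕ) : Fm → Prop
  | .le a b => a.Occ p ∨ b.Occ p
  | .con a b => a.Occ p ∨ b.Occ p
  | .bd a => a.Occ p
  | .neg φ => φ.Occ p
  | .and φ ψ => φ.Occ p ∨ ψ.Occ p
  | .or φ ψ => φ.Occ p ∨ ψ.Occ p
  | .imp φ ψ => φ.Occ p ∨ ψ.Occ p

/-- The truth value of a formula when the atomic formulas are given arbitrary truth values. -/
def Fm.tv (L C : Tm → Tm → Prop) (B : Tm → Prop) : Fm → Prop
  | .le a b => L a b
  | .con a b => C a b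
  | .bd a => B a
  | .neg φ => ¬ φ.tv L C B
  | .and φ ψ => φ.tv L C B ∧ ψ.tv L C B
  | .or φ ψ => φ.tv L C B ∨ ψ.tv L C B
  | .imp φ ψ => φ.tv L C B → ψ.tv L C B

/-- Which of (Con), (Ext), (Nor) are added to PWRCC-Bound; `nd` says whether the axiom `0 ≠ 1` is
added to the axioms of Boolean algebras. -/
structure Sys where
  con : Prop
  ext : Prop
  nor : Prop
  nd : Prop

/-- The theorems of the system. -/
inductive Thm (S : Sys) : Fm → Prop
  /-- instances of classical tautologies -/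
  | taut (φ : Fm) : (∀ L C B, φ.tv L C B) → Thm S φ
  /-- modus ponens -/
  | mp (φ ψ : Fm) : Thm S (.imp φ ψ) → Thm S φ → Thm S ψ
  /- the axioms of Boolean algebras -/
  | le_refl (a : Tm) : Thm S (.le a a)
  | le_trans (a b c : Tm) : Thm S (.imp (.and (.le a b) (.le b c)) (.le a c))
  | zero_le (a : Tm) : Thm S (.le .zero a)
  | le_one (a : Tm) : Thm S (.le a .one)
  | mul_le_left (a b : Tm) : Thm S (.le (.mul a b) a)
  | mul_le_right (a b : Tm) : Thm S (.le (.mul a b) b)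
  | le_mul (a b c : Tm) : Thm S (.imp (.and (.le c a) (.le c b)) (.le c (.mul a b)))
  | le_add_left (a b : Tm) : Thm S (.le a (.add a b))
  | le_add_right (a b : Tm) : Thm S (.le b (.add a b))
  | add_le (a b c : Tm) : Thm S (.imp (.and (.le a c) (.le b c)) (.le (.add a b) c))
  | distrib (a b c : Tm) : Thm S (.le (.mul a (.add b c)) (.add (.mul a b) (.mul a c)))
  | mul_star (a : Tm) : Thm S (.le (.mul a (.star a)) .zero)
  | add_star (a : Tm) : Thm S (.le .one (.add a (.star a)))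
  | nondeg : S.nd → Thm S (.neg (.le .one .zero))
  /- the axioms of contact -/
  | con_ne (a b : Tm) : Thm S (.imp (.con a b) (.and (.neg (.eq a .zero)) (.neg (.eq b .zero))))
  | con_symm (a b : Tm) : Thm S (.imp (.con a b) (.con b a))
  | con_add (a b c : Tm) : Thm S (.imp (.con a (.add b c)) (.or (.con a b) (.con a c)))
  | con_add' (a b c : Tm) : Thm S (.imp (.or (.con a b) (.con a c)) (.con a (.add b c)))
  | con_mono (a b c : Tm) : Thm S (.imp (.and (.con a b) (.le b c)) (.con a c))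
  | con_of_mul (a b : Tm) : Thm S (.imp (.neg (.eq (.mul a b) .zero)) (.con a b))
  /- the axioms of boundedness -/
  | bd_zero : Thm S (.bd .zero)
  | bd_mono (a b : Tm) : Thm S (.imp (.and (.bd b) (.le a b)) (.bd a))
  | bd_add (a b : Tm) : Thm S (.imp (.and (.bd a) (.bd b)) (.bd (.add a b)))
  /- the rule BOUND-1 -/
  | bound1 (φ : Fm) (a b : Tm) (p : ℕ) : ¬ φ.Occ p → ¬ a.Occ p → ¬ b.Occ p →
      Thm S (.imp φ (.imp (.and (.bd (.var p)) (.le (.var p) b)) (.neg (.con a (.var p))))) →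
      Thm S (.imp φ (.neg (.con a b)))
  /- the rule BOUND-2 -/
  | bound2 (φ : Fm) (a : Tm) (p : ℕ) : ¬ φ.Occ p → ¬ a.Occ p →
      Thm S (.imp φ (.imp (.bd (.var p)) (.neg (.ll a (.var p))))) →
      Thm S (.imp φ (.neg (.bd a)))
  /- the axiom (Con) -/
  | con (a : Tm) : S.con → Thm S (.imp (.and (.neg (.eq a .zero)) (.neg (.eq a .one)))
      (.con a (.star a)))
  /- the rule EXT -/
  | ext (φ : Fm) (a : Tm) (p : ℕ) : S.ext → ¬ φ.Occ p → ¬ a.Occ p →
      Thm S (.imp φ (.or (.eq (.var p) .zero) (.con a (.var p)))) →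
      Thm S (.imp φ (.eq a .one))
  /- the rule NOR -/
  | nor (φ : Fm) (a b : Tm) (p : ℕ) : S.nor → ¬ φ.Occ p → ¬ a.Occ p → ¬ b.Occ p →
      Thm S (.imp φ (.or (.con a (.var p)) (.con (.star (.var p)) b))) →
      Thm S (.imp φ (.con a b))

/-! ### Semantics -/

section Sem

variable {A : Type} [BooleanAlgebra A]

/-- `(A, C, 𝔅)` is a local contact algebra. -/
structure IsLCA (C : A → A → Prop) (𝔅 : A → Prop) : Prop where
  con_ne : ∀ a b, C a b → a ≠ ⊥ ∧ b ≠ ⊥
  con_symm : ∀ a b, C a b → C b a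
  con_sup : ∀ a b c, C a (b ⊔ c) ↔ C a b ∨ C a c
  con_of_inf : ∀ a b, a ⊓ b ≠ ⊥ → C a b
  bd_bot : 𝔅 ⊥
  bd_mono : ∀ a b, a ≤ b → 𝔅 b → 𝔅 a
  bd_sup : ∀ a b, 𝔅 a → 𝔅 b → 𝔅 (a ⊔ b)
  bound1 : ∀ a b, C a b → ∃ c, 𝔅 c ∧ c ≤ b ∧ C a c
  bound2 : ∀ a, 𝔅 a → ∃ b, 𝔅 b ∧ ¬ C a bᶜ

/-- The conditions that correspond to (Con), (Ext), (Nor) and `0 ≠ 1`. -/
structure Sys.Cond (S : Sys) (C : A → A → Prop) : Prop where
  con : S.con → ∀ a : A, a ≠ ⊥ → a ≠ ⊤ → C a aᶜ
  ext : S.ext → ∀ a : A, a ≠ ⊤ → ∃ p, p ≠ ⊥ ∧ ¬ C a p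
  nor : S.nor → ∀ a b : A, ¬ C a b → ∃ p, ¬ C a p ∧ ¬ C pᶜ b
  nd : S.nd → (⊥ : A) ≠ ⊤

/-- The value of a term. -/
def Tm.val (v : ℕ → A) : Tm → A
  | .var n => v n
  | .zero => ⊥
  | .one => ⊤
  | .add a b => a.val v ⊔ b.val v
  | .mul a b => a.val v ⊓ b.val v
  | .star a => (a.val v)ᶜ

/-- The truth of a formula under an assignment. -/
def Fm.Holds (C : A → A → Prop) (𝔅 : A → Prop) (v : ℕ → A) : Fm → Prop
  | .le a b => a.val v ≤ b.val v
  | .con a b => C (a.val v) (b.val v)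
  | .bd a => 𝔅 (a.val v)
  | .neg φ => ¬ φ.Holds C 𝔅 v
  | .and φ ψ => φ.Holds C 𝔅 v ∧ ψ.Holds C 𝔅 v
  | .or φ ψ => φ.Holds C 𝔅 v ∨ ψ.Holds C 𝔅 v
  | .imp φ ψ => φ.Holds C 𝔅 v → ψ.Holds C 𝔅 v

end Sem

/-- `φ` is valid in all local contact algebras that satisfy the conditions of `S`. -/
def Valid (S : Sys) (φ : Fm) : Prop :=
  ∀ (A : Type) [BooleanAlgebra A] (C : A → A → Prop) (𝔅 : A → Prop), IsLCA C 𝔅 →
    S.Cond C → ∀ v : ℕ → A, φ.Holds C 𝔅 v

/-! ### Coding of formulas -/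

/-- The number of the nodes of the syntax tree. -/
def Tm.size : Tm → ℕ
  | .var _ => 1
  | .zero => 1
  | .one => 1
  | .add a b => a.size + b.size + 1
  | .mul a b => a.size + b.size + 1
  | .star a => a.size + 1

/-- The number of the nodes of the syntax tree. -/
def Fm.size : Fm → ℕ
  | .le a b => a.size + b.size + 1
  | .con a b => a.size + b.size + 1
  | .bd a => a.size + 1
  | .neg φ => φ.size + 1
  | .and φ ψ => φ.size + ψ.size + 1
  | .or φ ψ => φ.size + ψ.size + 1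
  | .imp φ ψ => φ.size + ψ.size + 1

/-- The nodes of the syntax tree of a term in postorder, numbered from `k`; each node is described
by its label and the numbers of its children (for a variable: its index). -/
def Tm.nodes : ℕ → Tm → List (ℕ × ℕ × ℕ)
  | _, .var n => [(0, n, 0)]
  | _, .zero => [(1, 0, 0)]
  | _, .one => [(2, 0, 0)]
  | k, .add a b => Tm.nodes k a ++ (Tm.nodes (k + a.size) b ++
      [(3, k + a.size - 1, k + a.size + b.size - 1)])
  | k, .mul a b => Tm.nodes k a ++ (Tm.nodes (k + a.size) b ++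
      [(4, k + a.size - 1, k + a.size + b.size - 1)])
  | k, .star a => Tm.nodes k a ++ [(5, k + a.size - 1, 0)]

/-- The nodes of the syntax tree of a formula in postorder, numbered from `k`. -/
def Fm.nodes : ℕ → Fm → List (ℕ × ℕ × ℕ)
  | k, .le a b => Tm.nodes k a ++ (Tm.nodes (k + a.size) b ++
      [(6, k + a.size - 1, k + a.size + b.size - 1)])
  | k, .con a b => Tm.nodes k a ++ (Tm.nodes (k + a.size) b ++
      [(7, k + a.size - 1, k + a.size + b.size - 1)])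
  | k, .bd a => Tm.nodes k a ++ [(8, k + a.size - 1, 0)]
  | k, .neg φ => Fm.nodes k φ ++ [(9, k + φ.size - 1, 0)]
  | k, .and φ ψ => Fm.nodes k φ ++ (Fm.nodes (k + φ.size) ψ ++
      [(10, k + φ.size - 1, k + φ.size + ψ.size - 1)])
  | k, .or φ ψ => Fm.nodes k φ ++ (Fm.nodes (k + φ.size) ψ ++
      [(11, k + φ.size - 1, k + φ.size + ψ.size - 1)])
  | k, .imp φ ψ => Fm.nodes k φ ++ (Fm.nodes (k + φ.size) ψ ++
      [(12, k + φ.size - 1, k + φ.size + ψ.size - 1)])

/-- The code of a formula: the nodes of its syntax tree in postorder, numbered from `0`. -/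
def Fm.code (φ : Fm) : List (ℕ × ℕ × ℕ) := φ.nodes 0

end Pool.Agent.R620.RB
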