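import Pool.Agent.R620.RB.Canon

/-!
# The finite model of a contact algebra with a valuation
-/

set_option autoImplicit false

namespace Pool.Agent.R620.RB

variable {A : Type} [BooleanAlgebra A]

/-- contact algebras with an ideal -/
structure IsPCA (C : A → A → Prop) (𝔅 : A → Prop) : Prop where
  con_ne : ∀ a b, C a b → a ≠ ⊥ ∧ b ≠ ⊥
  con_symm : ∀ a b, C a b → C b a
  con_sup : ∀ a b c, C a (b ⊔ c) → C a b ∨ C a c
  con_mono : ∀ a b c, C a b → b ≤ c → C a c
  con_of_inf : ∀ a b, a ⊓ b ≠ ⊥ → C a b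
  bd_bot : 𝔅 ⊥
  bd_mono : ∀ a b, a ≤ b → 𝔅 b → 𝔅 a
  bd_sup : ∀ a b, 𝔅 a → 𝔅 b → 𝔅 (a ⊔ b)

/-- the element given by the binary digits of `k` below `n` -/
noncomputable def tt (v : ℕ → A) : ℕ → ℕ → A
  | 0, _ => ⊤
  | n + 1, k => open Classical in tt v n k ⊓ (if k / 2 ^ n % 2 = 1 then v n else (v n)ᶜ)

theorem dig_add {n k i : ℕ} (hi : i < n) : (k + 2 ^ n) / 2 ^ i % 2 = k / 2 ^ i % 2 := by
  obtain ⟨d, rfl⟩ : ∃ d, n = i + (d + 1) := ⟨n - i - 1, by omega⟩
  have h : 2 ^ (i + (d + 1)) = 2 ^ i * (2 * 2 ^ d) := by ring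
  rw [h, Nat.add_mul_div_left _ _ (by positivity)]
  omega

theorem tt_add (v : ℕ → A) {n k : ℕ} : ∀ {l : ℕ}, l ≤ n → tt v l (k + 2 ^ n) = tt v l k
  | 0, _ => rfl
  | l + 1, h => by
    simp only [tt]
    rw [tt_add v (by omega), dig_add (by omega)]

theorem exists_tt (v : ℕ → A) (Q : A → Prop)
    (hQ : ∀ x p : A, Q x → Q (x ⊓ p) ∨ Q (x ⊓ pᶜ)) (n : ℕ) :
    ∀ x, Q x → ∃ k < 2 ^ n, Q (x ⊓ tt v n k) := by
  induction n with
  | zero => exact fun x hx => ⟨0, by simp, by simpa [tt] using hx⟩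
  | succ n ih =>
    intro x hx
    rcases hQ x (v n) hx with h | h
    · obtain ⟨k, hk, h1⟩ := ih _ h
      refine ⟨k + 2 ^ n, by rw [pow_succ]; omega, ?_⟩
      have h2 : (k + 2 ^ n) / 2 ^ n % 2 = 1 := by
        rw [Nat.add_div_right _ (by positivity), Nat.div_eq_of_lt hk]
      simp only [tt, h2, if_true]
      rw [tt_add v le_rfl, inf_comm (tt v n k), ← inf_assoc]
      exact h1
    · obtain ⟨k, hk, h1⟩ := ih _ h
      refine ⟨k, by rw [pow_succ]; omega, ?_⟩
      have h2 : ¬ k / 2 ^ n % 2 = 1 := by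
        rw [Nat.div_eq_of_lt hk]; simp
      simp only [tt, h2, if_false]
      rw [inf_comm (tt v n k), ← inf_assoc]
      exact h1

open Classical in
theorem tt_le (v : ℕ → A) {n k i : ℕ} (hi : i < n) :
    tt v n k ≤ (if k / 2 ^ i % 2 = 1 then v i else (v i)ᶜ) := by
  induction n with
  | zero => omega
  | succ n ih =>
    rcases Nat.lt_succ_iff_lt_or_eq.1 hi with h | rfl
    · exact inf_le_left.trans (ih h)
    · exact inf_le_right

theorem tt_tm (v : ℕ → A) {n k : ℕ} : ∀ a : Tm, (∀ i, a.Occ i → i < n) →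
    (a.tb k → tt v n k ≤ a.val v) ∧ (¬ a.tb k → tt v n k ≤ (a.val v)ᶜ)
  | .var i, h => by
    have := tt_le v (k := k) (h i rfl)
    constructor
    · intro h1
      simp only [Tm.tb] at h1
      simpa [Tm.val, h1] using this
    · intro h1
      simp only [Tm.tb] at h1
      rw [if_neg h1] at this
      exact this
  | .zero, _ => ⟨fun h => h.elim, fun _ => by simp [Tm.val]⟩
  | .one, _ => ⟨fun _ => by simp [Tm.val], fun h => (h trivial).elim⟩
  | .add a b, h => by
    have h1 := tt_tm v (k := k) a fun i hi => h i (Or.inl hi)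
    have h2 := tt_tm v (k := k) b fun i hi => h i (Or.inr hi)
    simp only [Tm.tb, Tm.val, compl_sup]
    refine ⟨?_, ?_⟩
    · rintro (h3 | h3)
      · exact (h1.1 h3).trans le_sup_left
      · exact (h2.1 h3).trans le_sup_right
    · intro h3
      push Not at h3
      exact le_inf (h1.2 h3.1) (h2.2 h3.2)
  | .mul a b, h => by
    have h1 := tt_tm v (k := k) a fun i hi => h i (Or.inl hi)
    have h2 := tt_tm v (k := k) b fun i hi => h i (Or.inr hi)
    simp only [Tm.tb, Tm.val, compl_inf]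
    refine ⟨?_, ?_⟩
    · rintro ⟨h3, h4⟩
      exact le_inf (h1.1 h3) (h2.1 h4)
    · intro h3
      rw [not_and_or] at h3
      rcases h3 with h3 | h3
      · exact (h1.2 h3).trans le_sup_left
      · exact (h2.2 h3).trans le_sup_right
  | .star a, h => by
    have h1 := tt_tm v (k := k) a h
    simp only [Tm.tb, Tm.val, compl_compl]
    exact ⟨h1.2, fun h2 => h1.1 (not_not.1 h2)⟩

theorem IsPCA.mono2 {C : A → A → Prop} {𝔅 : A → Prop} (h : IsPCA C 𝔅) {a b a' b' : A}
    (hab : C a b) (ha : a ≤ a') (hb : b ≤ b') : C a' b' :=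
  h.con_symm _ _ (h.con_mono _ _ _ (h.con_symm _ _ (h.con_mono _ _ _ hab hb)) ha)

theorem split (x p : A) : (x ⊓ p) ⊔ (x ⊓ pᶜ) = x := by
  rw [← inf_sup_left, sup_compl_eq_top, inf_top_eq]

variable {C : A → A → Prop} {𝔅 : A → Prop}

theorem exists_con (h : IsPCA C 𝔅) (v : ℕ → A) (n : ℕ) {a b : A} (hab : C a b) :
    ∃ k < 2 ^ n, C (a ⊓ tt v n k) b := by
  refine exists_tt v (fun x => C x b) (fun x p hx => ?_) n a hab
  have := h.con_symm _ _ hx
  rw [← split x p] at this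
  rcases h.con_sup _ _ _ this with h1 | h1
  · exact Or.inl (h.con_symm _ _ h1)
  · exact Or.inr (h.con_symm _ _ h1)

theorem exists_ne (v : ℕ → A) (n : ℕ) {a : A} (ha : a ≠ ⊥) : ∃ k < 2 ^ n, a ⊓ tt v n k ≠ ⊥ := by
  refine exists_tt v (fun x => x ≠ ⊥) (fun x p hx => ?_) n a ha
  by_contra hcon
  push Not at hcon
  apply hx
  rw [← split x p, hcon.1, hcon.2, sup_bot_eq]

theorem exists_bd (h : IsPCA C 𝔅) (v : ℕ → A) (n : ℕ) {a : A} (ha : ¬ 𝔅 a) :
    ∃ k < 2 ^ n, ¬ 𝔅 (a ⊓ tt v n k) := by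
  refine exists_tt v (fun x => ¬ 𝔅 x) (fun x p hx => ?_) n a ha
  by_contra hcon
  push Not at hcon
  apply hx
  rw [← split x p]
  exact h.bd_sup _ _ hcon.1 hcon.2

theorem ne_of_inf {a b : A} (h : a ⊓ b ≠ ⊥) : b ≠ ⊥ := by
  rintro rfl
  simp at h

theorem tb_of_inf (v : ℕ → A) {n k : ℕ} (a : Tm) (ha : ∀ i, a.Occ i → i < n)
    (h : a.val v ⊓ tt v n k ≠ ⊥) : a.tb k := by
  by_contra hcon
  have h1 := (tt_tm v a ha).2 hcon
  apply h
  rw [← le_bot_iff]
  calc a.val v ⊓ tt v n k ≤ a.val v ⊓ (a.val v)ᶜ := inf_le_inf_left _ h1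
    _ = ⊥ := inf_compl_self _

/-- the finite model -/
theorem cs_iff (h : IsPCA C 𝔅) (v : ℕ → A) (n : ℕ) : ∀ φ : Fm, (∀ i, φ.Occ i → i < n) →
    (φ.Holds C 𝔅 v ↔ φ.cs (2 ^ n) (fun k => tt v n k ≠ ⊥) (fun k l => C (tt v n k) (tt v n l))
      (fun k => ¬ 𝔅 (tt v n k)))
  | .le a b, ho => by
    have ha : ∀ i, a.Occ i → i < n := fun i hi => ho i (Or.inl hi)
    have hb : ∀ i, b.Occ i → i < n := fun i hi => ho i (Or.inr hi)
    simp only [Fm.Holds, Fm.cs]
    constructor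
    · intro hab k _ hk hak
      by_contra hbk
      apply hk
      have h1 := ((tt_tm v a ha).1 hak).trans hab
      have h2 := (tt_tm v b hb).2 hbk
      rw [← le_bot_iff, ← inf_compl_self (a := b.val v)]
      exact le_inf h1 h2
    · intro hab
      by_contra hcon
      have h1 : a.val v ⊓ (b.val v)ᶜ ≠ ⊥ := by
        intro e
        exact hcon (sdiff_eq_bot_iff.1 (by rw [sdiff_eq]; exact e))
      obtain ⟨k, hk, h2⟩ := exists_ne v n h1
      have h3 := ne_of_inf h2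
      have h4 : a.tb k := by
        apply tb_of_inf v a ha
        intro e
        apply h2
        rw [← le_bot_iff, ← e]
        exact inf_le_inf_right _ inf_le_left
      have h5 := (tt_tm v b hb).1 (hab k hk h3 h4)
      apply h2
      rw [← le_bot_iff, ← inf_compl_self (a := b.val v)]
      exact le_inf (inf_le_right.trans h5) (inf_le_left.trans inf_le_right)
  | .con a b, ho => by
    have ha : ∀ i, a.Occ i → i < n := fun i hi => ho i (Or.inl hi)
    have hb : ∀ i, b.Occ i → i < n := fun i hi => ho i (Or.inr hi)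
    simp only [Fm.Holds, Fm.cs]
    constructor
    · intro hab
      obtain ⟨k, hk, h1⟩ := exists_con h v n hab
      obtain ⟨l, hl, h2⟩ := exists_con h v n (h.con_symm _ _ h1)
      have h3 := (h.con_ne _ _ h2).1
      have h4 := (h.con_ne _ _ h2).2
      exact ⟨k, hk, l, hl, ne_of_inf h4, ne_of_inf h3,
        h.mono2 (h.con_symm _ _ h2) inf_le_right inf_le_right, tb_of_inf v a ha h4,
        tb_of_inf v b hb h3⟩
    · rintro ⟨k, hk, l, hl, -, -, h1, h2, h3⟩
      exact h.mono2 h1 ((tt_tm v a ha).1 h2) ((tt_tm v b hb).1 h3)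
  | .bd a, ha => by
    simp only [Fm.Holds, Fm.cs, not_not]
    constructor
    · intro h1 k _ _ h2
      exact h.bd_mono _ _ ((tt_tm v a ha).1 h2) h1
    · intro h1
      by_contra hcon
      obtain ⟨k, hk, h2⟩ := exists_bd h v n hcon
      have h3 : a.val v ⊓ tt v n k ≠ ⊥ := by
        intro e
        rw [e] at h2
        exact h2 h.bd_bot
      exact h2 (h.bd_mono _ _ inf_le_right (h1 k hk (ne_of_inf h3) (tb_of_inf v a ha h3)))
  | .neg φ, ho => not_congr (cs_iff h v n φ ho)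
  | .and φ ψ, ho => and_congr (cs_iff h v n φ fun i hi => ho i (Or.inl hi))
      (cs_iff h v n ψ fun i hi => ho i (Or.inr hi))
  | .or φ ψ, ho => or_congr (cs_iff h v n φ fun i hi => ho i (Or.inl hi))
      (cs_iff h v n ψ fun i hi => ho i (Or.inr hi))
  | .imp φ ψ, ho => imp_congr (cs_iff h v n φ fun i hi => ho i (Or.inl hi))
      (cs_iff h v n ψ fun i hi => ho i (Or.inr hi))

/-- A Boolean combination of the elements `tt v n k`. -/
theorem exists_join (v : ℕ → A) (n : ℕ) (s : ℕ → Prop) : ∃ a : A,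
    (∀ k < 2 ^ n, s k → tt v n k ≤ a) ∧ (∀ k < 2 ^ n, ¬ s k → tt v n k ≤ aᶜ) := by
  classical
  have hdis : ∀ k < 2 ^ n, ∀ l < 2 ^ n, k ≠ l → tt v n k ≤ (tt v n l)ᶜ := by
    intro k hk l hl hne
    obtain ⟨i, hi, hd⟩ : ∃ i < n, k / 2 ^ i % 2 ≠ l / 2 ^ i % 2 := by
      by_contra hcon
      push Not at hcon
      apply hne
      apply Nat.eq_of_testBit_eq
      intro i
      rw [Nat.testBit_eq_decide_div_mod_eq, Nat.testBit_eq_decide_div_mod_eq]
      by_cases hi : i < n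
      · rw [hcon i hi]
      · have h1 : k / 2 ^ i = 0 := Nat.div_eq_of_lt
          (lt_of_lt_of_le hk (Nat.pow_le_pow_right (by norm_num) (not_lt.1 hi)))
        have h2 : l / 2 ^ i = 0 := Nat.div_eq_of_lt
          (lt_of_lt_of_le hl (Nat.pow_le_pow_right (by norm_num) (not_lt.1 hi)))
        rw [h1, h2]
    have h1 := tt_le v (k := k) hi
    have h2 := tt_le v (k := l) hi
    rw [le_compl_iff_disjoint_right]
    refine Disjoint.mono h1 h2 ?_
    by_cases c1 : k / 2 ^ i % 2 = 1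
    · have c2 : ¬ l / 2 ^ i % 2 = 1 := fun e => hd (c1.trans e.symm)
      simp only [c1, c2, if_true, if_false]
      exact disjoint_compl_right
    · have c2 : l / 2 ^ i % 2 = 1 := by omega
      simp only [c1, c2, if_true, if_false]
      exact disjoint_compl_left
  refine ⟨((Finset.range (2 ^ n)).filter s).sup (tt v n), fun k hk hs => ?_, fun k hk hs => ?_⟩
  · exact Finset.le_sup (f := tt v n) (Finset.mem_filter.2 ⟨Finset.mem_range.2 hk, hs⟩)
  · rw [le_compl_comm]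
    refine Finset.sup_le fun l hl => ?_
    obtain ⟨h1, h2⟩ := Finset.mem_filter.1 hl
    exact hdis l (Finset.mem_range.1 h1) k hk fun e => hs (e ▸ h2)

theorem ok_of_pca {S : Sys} (h : IsPCA C 𝔅) (hcon : S.con → ∀ a : A, a ≠ ⊥ → a ≠ ⊤ → C a aᶜ)
    (hnd : S.nd → (⊥ : A) ≠ ⊤) (v : ℕ → A) (n : ℕ) :
    OK S (2 ^ n) (fun k => tt v n k ≠ ⊥) (fun k l => C (tt v n k) (tt v n l)) where
  refl k _ hk := h.con_of_inf _ _ (by rwa [inf_idem])
  symm k _ l _ _ _ hkl := h.con_symm _ _ hkl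
  conn hS s := by
    rintro ⟨k, hk, mk, sk⟩ ⟨l, hl, ml, sl⟩
    obtain ⟨a, ha1, ha2⟩ := exists_join v n s
    have h0 : a ≠ ⊥ := by
      rintro rfl
      exact mk (le_bot_iff.1 (ha1 k hk sk))
    have h1 : a ≠ ⊤ := by
      rintro rfl
      have := ha2 l hl sl
      rw [compl_top] at this
      exact ml (le_bot_iff.1 this)
    obtain ⟨k', hk', c1⟩ := exists_con h v n (hcon hS a h0 h1)
    obtain ⟨l', hl', c2⟩ := exists_con h v n (h.con_symm _ _ c1)
    have c3 := (h.con_ne _ _ c2).1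
    have c4 := (h.con_ne _ _ c2).2
    refine ⟨k', hk', l', hl', ne_of_inf c4, ne_of_inf c3, ?_, ?_,
      h.mono2 (h.con_symm _ _ c2) inf_le_right inf_le_right⟩
    · by_contra hs
      apply c4
      rw [← le_bot_iff, ← inf_compl_self (a := a)]
      exact inf_le_inf_left _ (ha2 k' hk' hs)
    · intro hs
      apply c3
      rw [← le_bot_iff, ← compl_inf_self (a := a)]
      exact inf_le_inf_left _ (ha1 l' hl' hs)
  nd hS := by
    obtain ⟨k, hk, h1⟩ := exists_ne v n (a := (⊤ : A)) (hnd hS).symm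
    exact ⟨k, hk, ne_of_inf h1⟩

end Pool.Agent.R620.RB
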