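import Pool.Agent.R620.RB.Dec

/-!
# The code determines the formula
-/

set_option autoImplicit false

namespace Pool.Agent.R620.RB

theorem split1 {A A' : List (ℕ × ℕ × ℕ)} {x x' : ℕ × ℕ × ℕ} (h : A ++ [x] = A' ++ [x']) :
    A = A' ∧ x = x' := by
  have := List.append_inj' h rfl
  exact ⟨this.1, by simpa using this.2⟩

theorem split2 {A A' B B' : List (ℕ × ℕ × ℕ)} {x x' : ℕ × ℕ × ℕ}
    (h : A ++ (B ++ [x]) = A' ++ (B' ++ [x'])) (hl : x = x' → A.length = A'.length) :
    A = A' ∧ B = B' ∧ x = x' := by
  have h0 := h
  rw [← List.append_assoc, ← List.append_assoc] at h0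
  have h1 := (split1 h0).2
  obtain ⟨h2, h3⟩ := List.append_inj h (hl h1)
  exact ⟨h2, (split1 h3).1, h1⟩

theorem Tm.nodes_inj (a : Tm) : ∀ (k : ℕ) (b : Tm), a.nodes k = b.nodes k → a = b := by
  induction a with
  | var i =>
    intro k b h
    cases b <;> have h' := congrArg List.getLast? h <;> simp [Tm.nodes] at h'
    rw [h']
  | zero =>
    intro k b h
    cases b <;> have h' := congrArg List.getLast? h <;> simp [Tm.nodes] at h' <;> rfl
  | one =>
    intro k b h
    cases b <;> have h' := congrArg List.getLast? h <;> simp [Tm.nodes] at h' <;> rfl
  | add a b iha ihb =>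
    intro k c h
    cases c with
    | add a' b' =>
      have s1 := a.size_pos
      have s2 := a'.size_pos
      obtain ⟨h1, h2, h3⟩ := split2 h (fun hx => by
        rw [a.length_nodes, a'.length_nodes]
        have := congrArg (fun q : ℕ × ℕ × ℕ => q.2.1) hx
        simp only at this
        omega)
      have e1 := iha k a' h1
      subst e1
      rw [ihb _ b' h2]
    | _ => have h' := congrArg List.getLast? h; simp [Tm.nodes] at h'
  | mul a b iha ihb =>
    intro k c h
    cases c with
    | mul a' b' =>
      have s1 := a.size_pos
      have s2 := a'.size_pos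
      obtain ⟨h1, h2, h3⟩ := split2 h (fun hx => by
        rw [a.length_nodes, a'.length_nodes]
        have := congrArg (fun q : ℕ × ℕ × ℕ => q.2.1) hx
        simp only at this
        omega)
      have e1 := iha k a' h1
      subst e1
      rw [ihb _ b' h2]
    | _ => have h' := congrArg List.getLast? h; simp [Tm.nodes] at h'
  | star a iha =>
    intro k c h
    cases c with
    | star a' => rw [iha k a' (split1 h).1]
    | _ => have h' := congrArg List.getLast? h; simp [Tm.nodes] at h'

theorem Fm.nodes_inj (a : Fm) : ∀ (k : ℕ) (b : Fm), a.nodes k = b.nodes k → a = b := by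
  induction a with
  | le a b =>
    intro k c h
    cases c with
    | le a' b' =>
      have s1 := a.size_pos
      have s2 := a'.size_pos
      obtain ⟨h1, h2, h3⟩ := split2 h (fun hx => by
        rw [a.length_nodes, a'.length_nodes]
        have := congrArg (fun q : ℕ × ℕ × ℕ => q.2.1) hx
        simp only at this
        omega)
      have e1 := a.nodes_inj k a' h1
      subst e1
      rw [b.nodes_inj _ b' h2]
    | _ => have h' := congrArg List.getLast? h; simp [Fm.nodes] at h'
  | con a b =>
    intro k c h
    cases c with
    | con a' b' =>
      have s1 := a.size_pos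
      have s2 := a'.size_pos
      obtain ⟨h1, h2, h3⟩ := split2 h (fun hx => by
        rw [a.length_nodes, a'.length_nodes]
        have := congrArg (fun q : ℕ × ℕ × ℕ => q.2.1) hx
        simp only at this
        omega)
      have e1 := a.nodes_inj k a' h1
      subst e1
      rw [b.nodes_inj _ b' h2]
    | _ => have h' := congrArg List.getLast? h; simp [Fm.nodes] at h'
  | bd a =>
    intro k c h
    cases c with
    | bd a' => rw [a.nodes_inj k a' (split1 h).1]
    | _ => have h' := congrArg List.getLast? h; simp [Fm.nodes] at h'
  | neg a iha =>
    intro k c h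
    cases c with
    | neg a' => rw [iha k a' (split1 h).1]
    | _ => have h' := congrArg List.getLast? h; simp [Fm.nodes] at h'
  | and a b iha ihb =>
    intro k c h
    cases c with
    | and a' b' =>
      have s1 := a.size_pos
      have s2 := a'.size_pos
      obtain ⟨h1, h2, h3⟩ := split2 h (fun hx => by
        rw [a.length_nodes, a'.length_nodes]
        have := congrArg (fun q : ℕ × ℕ × ℕ => q.2.1) hx
        simp only at this
        omega)
      have e1 := iha k a' h1
      subst e1
      rw [ihb _ b' h2]
    | _ => have h' := congrArg List.getLast? h; simp [Fm.nodes] at h'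
  | or a b iha ihb =>
    intro k c h
    cases c with
    | or a' b' =>
      have s1 := a.size_pos
      have s2 := a'.size_pos
      obtain ⟨h1, h2, h3⟩ := split2 h (fun hx => by
        rw [a.length_nodes, a'.length_nodes]
        have := congrArg (fun q : ℕ × ℕ × ℕ => q.2.1) hx
        simp only at this
        omega)
      have e1 := iha k a' h1
      subst e1
      rw [ihb _ b' h2]
    | _ => have h' := congrArg List.getLast? h; simp [Fm.nodes] at h'
  | imp a b iha ihb =>
    intro k c h
    cases c with
    | imp a' b' =>
      have s1 := a.size_pos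
      have s2 := a'.size_pos
      obtain ⟨h1, h2, h3⟩ := split2 h (fun hx => by
        rw [a.length_nodes, a'.length_nodes]
        have := congrArg (fun q : ℕ × ℕ × ℕ => q.2.1) hx
        simp only at this
        omega)
      have e1 := iha k a' h1
      subst e1
      rw [ihb _ b' h2]
    | _ => have h' := congrArg List.getLast? h; simp [Fm.nodes] at h'

theorem code_injective : Function.Injective Fm.code := fun a b h => a.nodes_inj 0 b h

end Pool.Agent.R620.RB
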