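import Pool.Agent.R620.RB.Canon

/-!
# Evaluation tables on the nodes of the syntax tree
-/

set_option autoImplicit false

namespace Pool.Agent.R620.RB

section

variable (N : ℕ) (m : ℕ → Prop) (e : ℕ → ℕ → Prop) (u : ℕ → Prop) (V : ℕ → ℕ → Prop)

/-- the condition on the values at the node `k` with the label `t` and the children `i`, `j` -/
def NC (k : ℕ) (q : ℕ × ℕ × ℕ) : Prop :=
  (q.1 = 0 → ∀ v < N, V k v ↔ v / 2 ^ q.2.1 % 2 = 1) ∧
  (q.1 = 1 → ∀ v < N, ¬ V k v) ∧
  (q.1 = 2 → ∀ v < N, V k v) ∧
  (q.1 = 3 → ∀ v < N, V k v ↔ (V q.2.1 v ∨ V q.2.2 v)) ∧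
  (q.1 = 4 → ∀ v < N, V k v ↔ (V q.2.1 v ∧ V q.2.2 v)) ∧
  (q.1 = 5 → ∀ v < N, V k v ↔ ¬ V q.2.1 v) ∧
  (q.1 = 6 → (V k 0 ↔ ∀ v < N, m v → V q.2.1 v → V q.2.2 v)) ∧
  (q.1 = 7 → (V k 0 ↔ ∃ v < N, ∃ w < N, m v ∧ m w ∧ e v w ∧ V q.2.1 v ∧ V q.2.2 w)) ∧
  (q.1 = 8 → (V k 0 ↔ ∀ v < N, m v → V q.2.1 v → ¬ u v)) ∧
  (q.1 = 9 → (V k 0 ↔ ¬ V q.2.1 0)) ∧
  (q.1 = 10 → (V k 0 ↔ (V q.2.1 0 ∧ V q.2.2 0))) ∧
  (q.1 = 11 → (V k 0 ↔ (V q.2.1 0 ∨ V q.2.2 0))) ∧
  (q.1 = 12 → (V k 0 ↔ (V q.2.1 0 → V q.2.2 0)))

theorem Tm.length_nodes : ∀ (a : Tm) (k : ℕ), (a.nodes k).length = a.size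
  | .var _, _ => rfl
  | .zero, _ => rfl
  | .one, _ => rfl
  | .add a b, k => by
    simp only [Tm.nodes, List.length_append, a.length_nodes, b.length_nodes, List.length_singleton,
      Tm.size]; omega
  | .mul a b, k => by
    simp only [Tm.nodes, List.length_append, a.length_nodes, b.length_nodes, List.length_singleton,
      Tm.size]; omega
  | .star a, k => by
    simp only [Tm.nodes, List.length_append, a.length_nodes, List.length_singleton, Tm.size]

theorem Tm.size_pos : ∀ a : Tm, 0 < a.size
  | .var _ => Nat.one_pos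
  | .zero => Nat.one_pos
  | .one => Nat.one_pos
  | .add _ _ => Nat.succ_pos _
  | .mul _ _ => Nat.succ_pos _
  | .star _ => Nat.succ_pos _

theorem Fm.length_nodes : ∀ (a : Fm) (k : ℕ), (a.nodes k).length = a.size
  | .le a b, k => by
    simp only [Fm.nodes, List.length_append, a.length_nodes, b.length_nodes, List.length_singleton,
      Fm.size]; omega
  | .con a b, k => by
    simp only [Fm.nodes, List.length_append, a.length_nodes, b.length_nodes, List.length_singleton,
      Fm.size]; omega
  | .bd a, k => by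
    simp only [Fm.nodes, List.length_append, a.length_nodes, List.length_singleton, Fm.size]
  | .neg a, k => by
    simp only [Fm.nodes, List.length_append, a.length_nodes, List.length_singleton, Fm.size]
  | .and a b, k => by
    simp only [Fm.nodes, List.length_append, a.length_nodes, b.length_nodes, List.length_singleton,
      Fm.size]; omega
  | .or a b, k => by
    simp only [Fm.nodes, List.length_append, a.length_nodes, b.length_nodes, List.length_singleton,
      Fm.size]; omega
  | .imp a b, k => by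
    simp only [Fm.nodes, List.length_append, a.length_nodes, b.length_nodes, List.length_singleton,
      Fm.size]; omega

theorem Fm.size_pos : ∀ a : Fm, 0 < a.size
  | .le _ _ => Nat.succ_pos _
  | .con _ _ => Nat.succ_pos _
  | .bd _ => Nat.succ_pos _
  | .neg _ => Nat.succ_pos _
  | .and _ _ => Nat.succ_pos _
  | .or _ _ => Nat.succ_pos _
  | .imp _ _ => Nat.succ_pos _

/-- all the nodes of the segment `l` that starts at `k` satisfy the condition -/
def Seg (k : ℕ) (l : List (ℕ × ℕ × ℕ)) : Prop := ∀ r (h : r < l.length), NC N m e u V (k + r) l[r]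

variable {N m e u V}

theorem seg_append {k : ℕ} {l l' : List (ℕ × ℕ × ℕ)} :
    Seg N m e u V k (l ++ l') ↔ Seg N m e u V k l ∧ Seg N m e u V (k + l.length) l' := by
  constructor
  · intro h
    refine ⟨fun r hr => ?_, fun r hr => ?_⟩
    · have := h r (by rw [List.length_append]; omega)
      rwa [List.getElem_append_left hr] at this
    · have := h (l.length + r) (by rw [List.length_append]; omega)
      rw [List.getElem_append_right (by omega)] at this
      simpa [add_assoc] using this
  · rintro ⟨h1, h2⟩ r hr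
    by_cases c : r < l.length
    · rw [List.getElem_append_left c]
      exact h1 r c
    · rw [List.getElem_append_right (by omega)]
      have h3 : r - l.length < l'.length := by rw [List.length_append] at hr; omega
      have := h2 (r - l.length) h3
      have e1 : k + l.length + (r - l.length) = k + r := by omega
      rwa [e1] at this

theorem seg_single {k : ℕ} {q : ℕ × ℕ × ℕ} :
    Seg N m e u V k [q] ↔ NC N m e u V k q := by
  constructor
  · intro h
    simpa using h 0 (by simp)
  · intro h r hr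
    have : r = 0 := by simpa using hr
    subst this
    simpa using h

theorem tm_root : ∀ (a : Tm) (k : ℕ), Seg N m e u V k (a.nodes k) →
    ∀ v < N, (V (k + a.size - 1) v ↔ a.tb v)
  | .var i, k, h => by
    have := (seg_single.1 h).1 rfl
    simpa [Tm.size, Tm.tb] using this
  | .zero, k, h => by
    have := (seg_single.1 h).2.1 rfl
    simpa [Tm.size, Tm.tb] using this
  | .one, k, h => by
    have := (seg_single.1 h).2.2.1 rfl
    simpa [Tm.size, Tm.tb] using this
  | .add a b, k, h => by
    intro v hv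
    rw [Tm.nodes, seg_append, seg_append, a.length_nodes, b.length_nodes, seg_single] at h
    obtain ⟨h1, h2, h3⟩ := h
    have h4 := h3.2.2.2.1 rfl v hv
    have e1 : k + (Tm.add a b).size - 1 = k + a.size + b.size := by simp only [Tm.size]; omega
    rw [e1, h4]
    exact or_congr (tm_root a k h1 v hv) (tm_root b _ h2 v hv)
  | .mul a b, k, h => by
    intro v hv
    rw [Tm.nodes, seg_append, seg_append, a.length_nodes, b.length_nodes, seg_single] at h
    obtain ⟨h1, h2, h3⟩ := h
    have h4 := h3.2.2.2.2.1 rfl v hv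
    have e1 : k + (Tm.mul a b).size - 1 = k + a.size + b.size := by simp only [Tm.size]; omega
    rw [e1, h4]
    exact and_congr (tm_root a k h1 v hv) (tm_root b _ h2 v hv)
  | .star a, k, h => by
    intro v hv
    rw [Tm.nodes, seg_append, a.length_nodes, seg_single] at h
    obtain ⟨h1, h3⟩ := h
    have h4 := h3.2.2.2.2.2.1 rfl v hv
    have e1 : k + (Tm.star a).size - 1 = k + a.size := by simp only [Tm.size]; omega
    rw [e1, h4]
    exact not_congr (tm_root a k h1 v hv)

theorem fm_root : ∀ (φ : Fm) (k : ℕ), Seg N m e u V k (φ.nodes k) →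
    (V (k + φ.size - 1) 0 ↔ φ.cs N m e u)
  | .le a b, k, h => by
    rw [Fm.nodes, seg_append, seg_append, a.length_nodes, b.length_nodes, seg_single] at h
    obtain ⟨h1, h2, h3⟩ := h
    have h4 := h3.2.2.2.2.2.2.1 rfl
    have e1 : k + (Fm.le a b).size - 1 = k + a.size + b.size := by simp only [Fm.size]; omega
    rw [e1, h4]
    simp only [Fm.cs]
    refine forall_congr' fun v => forall_congr' fun hv => ?_
    rw [tm_root a k h1 v hv, tm_root b _ h2 v hv]
  | .con a b, k, h => by
    rw [Fm.nodes, seg_append, seg_append, a.length_nodes, b.length_nodes, seg_single] at h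
    obtain ⟨h1, h2, h3⟩ := h
    have h4 := h3.2.2.2.2.2.2.2.1 rfl
    have e1 : k + (Fm.con a b).size - 1 = k + a.size + b.size := by simp only [Fm.size]; omega
    rw [e1, h4]
    simp only [Fm.cs]
    refine exists_congr fun v => and_congr_right fun hv => exists_congr fun w =>
      and_congr_right fun hw => ?_
    rw [tm_root a k h1 v hv, tm_root b _ h2 w hw]
  | .bd a, k, h => by
    rw [Fm.nodes, seg_append, a.length_nodes, seg_single] at h
    obtain ⟨h1, h3⟩ := h
    have h4 := h3.2.2.2.2.2.2.2.2.1 rfl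
    have e1 : k + (Fm.bd a).size - 1 = k + a.size := by simp only [Fm.size]; omega
    rw [e1, h4]
    simp only [Fm.cs]
    refine forall_congr' fun v => forall_congr' fun hv => ?_
    rw [tm_root a k h1 v hv]
  | .neg φ, k, h => by
    rw [Fm.nodes, seg_append, φ.length_nodes, seg_single] at h
    obtain ⟨h1, h3⟩ := h
    have h4 := h3.2.2.2.2.2.2.2.2.2.1 rfl
    have e1 : k + (Fm.neg φ).size - 1 = k + φ.size := by simp only [Fm.size]; omega
    rw [e1, h4]
    exact not_congr (fm_root φ k h1)
  | .and φ ψ, k, h => by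
    rw [Fm.nodes, seg_append, seg_append, φ.length_nodes, ψ.length_nodes, seg_single] at h
    obtain ⟨h1, h2, h3⟩ := h
    have h4 := h3.2.2.2.2.2.2.2.2.2.2.1 rfl
    have e1 : k + (Fm.and φ ψ).size - 1 = k + φ.size + ψ.size := by simp only [Fm.size]; omega
    rw [e1, h4]
    exact and_congr (fm_root φ k h1) (fm_root ψ _ h2)
  | .or φ ψ, k, h => by
    rw [Fm.nodes, seg_append, seg_append, φ.length_nodes, ψ.length_nodes, seg_single] at h
    obtain ⟨h1, h2, h3⟩ := h
    have h4 := h3.2.2.2.2.2.2.2.2.2.2.2.1 rfl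
    have e1 : k + (Fm.or φ ψ).size - 1 = k + φ.size + ψ.size := by simp only [Fm.size]; omega
    rw [e1, h4]
    exact or_congr (fm_root φ k h1) (fm_root ψ _ h2)
  | .imp φ ψ, k, h => by
    rw [Fm.nodes, seg_append, seg_append, φ.length_nodes, ψ.length_nodes, seg_single] at h
    obtain ⟨h1, h2, h3⟩ := h
    have h4 := h3.2.2.2.2.2.2.2.2.2.2.2.2 rfl
    have e1 : k + (Fm.imp φ ψ).size - 1 = k + φ.size + ψ.size := by simp only [Fm.size]; omega
    rw [e1, h4]
    exact imp_congr (fm_root φ k h1) (fm_root ψ _ h2)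

end

/-! ### Existence of the table -/

theorem nc_congr {N : ℕ} {m : ℕ → Prop} {e : ℕ → ℕ → Prop} {u : ℕ → Prop} {V V' : ℕ → ℕ → Prop}
    {b k : ℕ} {q : ℕ × ℕ × ℕ} (hN : 0 < N) (hV : ∀ i < b, ∀ v < N, (V i v ↔ V' i v))
    (h1 : k < b) (hl : 3 ≤ q.1 → q.2.1 < b ∧ q.2.2 < b)
    (h : NC N m e u V k q) : NC N m e u V' k q := by
  obtain ⟨a0, a1, a2, a3, a4, a5, a6, a7, a8, a9, a10, a11, a12⟩ := h
  refine ⟨fun x v hv => ?_, fun x v hv => ?_, fun x v hv => ?_, fun x v hv => ?_,
    fun x v hv => ?_, fun x v hv => ?_, fun x => ?_, fun x => ?_, fun x => ?_, fun x => ?_,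
    fun x => ?_, fun x => ?_, fun x => ?_⟩
  · rw [← hV _ h1 v hv]; exact a0 x v hv
  · rw [← hV _ h1 v hv]; exact a1 x v hv
  · rw [← hV _ h1 v hv]; exact a2 x v hv
  · obtain ⟨h2, h3⟩ := hl (by omega)
    rw [← hV _ h1 v hv, ← hV _ h2 v hv, ← hV _ h3 v hv]; exact a3 x v hv
  · obtain ⟨h2, h3⟩ := hl (by omega)
    rw [← hV _ h1 v hv, ← hV _ h2 v hv, ← hV _ h3 v hv]; exact a4 x v hv
  · obtain ⟨h2, h3⟩ := hl (by omega)
    rw [← hV _ h1 v hv, ← hV _ h2 v hv]; exact a5 x v hv
  · obtain ⟨h2, h3⟩ := hl (by omega)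
    rw [← hV _ h1 0 hN, a6 x]
    refine forall_congr' fun v => forall_congr' fun hv => ?_
    rw [hV _ h2 v hv, hV _ h3 v hv]
  · obtain ⟨h2, h3⟩ := hl (by omega)
    rw [← hV _ h1 0 hN, a7 x]
    refine exists_congr fun v => and_congr_right fun hv => exists_congr fun w =>
      and_congr_right fun hw => ?_
    rw [hV _ h2 v hv, hV _ h3 w hw]
  · obtain ⟨h2, h3⟩ := hl (by omega)
    rw [← hV _ h1 0 hN, a8 x]
    refine forall_congr' fun v => forall_congr' fun hv => ?_
    rw [hV _ h2 v hv]
  · obtain ⟨h2, h3⟩ := hl (by omega)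
    rw [← hV _ h1 0 hN, a9 x, hV _ h2 0 hN]
  · obtain ⟨h2, h3⟩ := hl (by omega)
    rw [← hV _ h1 0 hN, a10 x, hV _ h2 0 hN, hV _ h3 0 hN]
  · obtain ⟨h2, h3⟩ := hl (by omega)
    rw [← hV _ h1 0 hN, a11 x, hV _ h2 0 hN, hV _ h3 0 hN]
  · obtain ⟨h2, h3⟩ := hl (by omega)
    rw [← hV _ h1 0 hN, a12 x, hV _ h2 0 hN, hV _ h3 0 hN]

/-- the children of the nodes precede them -/
def WFL (k : ℕ) (l : List (ℕ × ℕ × ℕ)) : Prop :=
  ∀ r (h : r < l.length), 3 ≤ l[r].1 → l[r].2.1 < k + r ∧ l[r].2.2 < k + r

theorem wfl_append {k : ℕ} {l l' : List (ℕ × ℕ × ℕ)} (h1 : WFL k l)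
    (h2 : WFL (k + l.length) l') : WFL k (l ++ l') := by
  intro r hr
  by_cases c : r < l.length
  · rw [List.getElem_append_left c]
    exact h1 r c
  · rw [List.getElem_append_right (by omega)]
    have h3 : r - l.length < l'.length := by rw [List.length_append] at hr; omega
    have := h2 (r - l.length) h3
    have e1 : k + l.length + (r - l.length) = k + r := by omega
    rwa [e1] at this

theorem wfl_single {k : ℕ} {q : ℕ × ℕ × ℕ} (h : 3 ≤ q.1 → q.2.1 < k ∧ q.2.2 < k) :
    WFL k [q] := by
  intro r hr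
  have : r = 0 := by simpa using hr
  subst this
  simpa using h

theorem Tm.wfl : ∀ (a : Tm) (k : ℕ), WFL k (a.nodes k)
  | .var _, _ => wfl_single fun h => absurd h (by simp)
  | .zero, _ => wfl_single fun h => absurd h (by simp)
  | .one, _ => wfl_single fun h => absurd h (by simp)
  | .add a b, k => by
    have := a.size_pos
    have := b.size_pos
    refine wfl_append (a.wfl k) (wfl_append ?_ (wfl_single fun _ => ?_))
    · rw [a.length_nodes]; exact b.wfl _
    · rw [a.length_nodes, b.length_nodes]; simp only; omega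
  | .mul a b, k => by
    have := a.size_pos
    have := b.size_pos
    refine wfl_append (a.wfl k) (wfl_append ?_ (wfl_single fun _ => ?_))
    · rw [a.length_nodes]; exact b.wfl _
    · rw [a.length_nodes, b.length_nodes]; simp only; omega
  | .star a, k => by
    have := a.size_pos
    refine wfl_append (a.wfl k) (wfl_single fun _ => ?_)
    rw [a.length_nodes]; simp only; omega

theorem Fm.wfl : ∀ (a : Fm) (k : ℕ), WFL k (a.nodes k)
  | .le a b, k => by
    have := a.size_pos
    have := b.size_pos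
    refine wfl_append (a.wfl k) (wfl_append ?_ (wfl_single fun _ => ?_))
    · rw [a.length_nodes]; exact b.wfl _
    · rw [a.length_nodes, b.length_nodes]; simp only; omega
  | .con a b, k => by
    have := a.size_pos
    have := b.size_pos
    refine wfl_append (a.wfl k) (wfl_append ?_ (wfl_single fun _ => ?_))
    · rw [a.length_nodes]; exact b.wfl _
    · rw [a.length_nodes, b.length_nodes]; simp only; omega
  | .bd a, k => by
    have := a.size_pos
    refine wfl_append (a.wfl k) (wfl_single fun _ => ?_)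
    rw [a.length_nodes]; simp only; omega
  | .neg a, k => by
    have := a.size_pos
    refine wfl_append (a.wfl k) (wfl_single fun _ => ?_)
    rw [a.length_nodes]; simp only; omega
  | .and a b, k => by
    have := a.size_pos
    have := b.size_pos
    refine wfl_append (a.wfl k) (wfl_append ?_ (wfl_single fun _ => ?_))
    · rw [a.length_nodes]; exact b.wfl _
    · rw [a.length_nodes, b.length_nodes]; simp only; omega
  | .or a b, k => by
    have := a.size_pos
    have := b.size_pos
    refine wfl_append (a.wfl k) (wfl_append ?_ (wfl_single fun _ => ?_))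
    · rw [a.length_nodes]; exact b.wfl _
    · rw [a.length_nodes, b.length_nodes]; simp only; omega
  | .imp a b, k => by
    have := a.size_pos
    have := b.size_pos
    refine wfl_append (a.wfl k) (wfl_append ?_ (wfl_single fun _ => ?_))
    · rw [a.length_nodes]; exact b.wfl _
    · rw [a.length_nodes, b.length_nodes]; simp only; omega

/-- the value at a new node -/
def newV (N : ℕ) (m : ℕ → Prop) (e : ℕ → ℕ → Prop) (u : ℕ → Prop) (V : ℕ → ℕ → Prop)
    (q : ℕ × ℕ × ℕ) (v : ℕ) : Prop :=
  match q.1 with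
  | 0 => v / 2 ^ q.2.1 % 2 = 1
  | 1 => False
  | 2 => True
  | 3 => V q.2.1 v ∨ V q.2.2 v
  | 4 => V q.2.1 v ∧ V q.2.2 v
  | 5 => ¬ V q.2.1 v
  | 6 => ∀ v < N, m v → V q.2.1 v → V q.2.2 v
  | 7 => ∃ v < N, ∃ w < N, m v ∧ m w ∧ e v w ∧ V q.2.1 v ∧ V q.2.2 w
  | 8 => ∀ v < N, m v → V q.2.1 v → ¬ u v
  | 9 => ¬ V q.2.1 0
  | 10 => V q.2.1 0 ∧ V q.2.2 0
  | 11 => V q.2.1 0 ∨ V q.2.2 0
  | 12 => V q.2.1 0 → V q.2.2 0
  | _ => True

theorem exists_table {N : ℕ} (hN : 0 < N) (m : ℕ → Prop) (e : ℕ → ℕ → Prop) (u : ℕ → Prop)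
    (l : List (ℕ × ℕ × ℕ)) : WFL 0 l → ∃ V : ℕ → ℕ → Prop, Seg N m e u V 0 l := by
  classical
  induction l using List.reverseRecOn with
  | nil => exact fun _ => ⟨fun _ _ => True, fun r hr => by simp at hr⟩
  | append_singleton l q ih =>
    intro hl
    have hl' : WFL 0 l := by
      intro r hr
      have := hl r (by rw [List.length_append]; omega)
      rwa [List.getElem_append_left hr] at this
    have hq : 3 ≤ q.1 → q.2.1 < l.length ∧ q.2.2 < l.length := by
      have := hl l.length (by simp)
      simpa using this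
    obtain ⟨V, hV⟩ := ih hl'
    let V' : ℕ → ℕ → Prop := fun i => if i = l.length then newV N m e u V q else V i
    have hVV : ∀ i < l.length, ∀ v < N, (V i v ↔ V' i v) := by
      intro i hi v _
      have : ¬ i = l.length := by omega
      simp only [V', this, if_false]
    have hV' : ∀ v, (V' l.length v ↔ newV N m e u V q v) := by
      intro v
      simp only [V', if_true]
    refine ⟨V', ?_⟩
    rw [seg_append, seg_single, zero_add]
    refine ⟨?_, ?_⟩
    · intro r hr
      refine nc_congr hN hVV (b := l.length) (by omega) ?_ (hV r hr)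
      intro h3
      have := hl' r hr h3
      omega
    · have hi : 3 ≤ q.1 → ∀ v < N, (V q.2.1 v ↔ V' q.2.1 v) := fun h => hVV _ (hq h).1
      have hj : 3 ≤ q.1 → ∀ v < N, (V q.2.2 v ↔ V' q.2.2 v) := fun h => hVV _ (hq h).2
      refine ⟨fun x v hv => ?_, fun x v hv => ?_, fun x v hv => ?_, fun x v hv => ?_,
        fun x v hv => ?_, fun x v hv => ?_, fun x => ?_, fun x => ?_, fun x => ?_, fun x => ?_,
        fun x => ?_, fun x => ?_, fun x => ?_⟩
      · rw [hV']; simp only [newV, x]
      · rw [hV']; simp only [newV, x, not_false_eq_true]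
      · rw [hV']; simp only [newV, x]
      · rw [hV', ← hi (by omega) v hv, ← hj (by omega) v hv]; simp only [newV, x]
      · rw [hV', ← hi (by omega) v hv, ← hj (by omega) v hv]; simp only [newV, x]
      · rw [hV', ← hi (by omega) v hv]; simp only [newV, x]
      · rw [hV']; simp only [newV, x]
        refine forall_congr' fun v => forall_congr' fun hv => ?_
        rw [hi (by omega) v hv, hj (by omega) v hv]
      · rw [hV']; simp only [newV, x]
        refine exists_congr fun v => and_congr_right fun hv => exists_congr fun w =>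
          and_congr_right fun hw => ?_
        rw [hi (by omega) v hv, hj (by omega) w hw]
      · rw [hV']; simp only [newV, x]
        refine forall_congr' fun v => forall_congr' fun hv => ?_
        rw [hi (by omega) v hv]
      · rw [hV', ← hi (by omega) 0 hN]; simp only [newV, x]
      · rw [hV', ← hi (by omega) 0 hN, ← hj (by omega) 0 hN]; simp only [newV, x]
      · rw [hV', ← hi (by omega) 0 hN, ← hj (by omega) 0 hN]; simp only [newV, x]
      · rw [hV', ← hi (by omega) 0 hN, ← hj (by omega) 0 hN]; simp only [newV, x]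

end Pool.Agent.R620.RB
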