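import Pool.Agent.R620.RB.Top

/-!
# Strips in the plane: the embedding of a finite model
-/

set_option autoImplicit false

namespace Pool.Agent.R620.RB

open TopologicalSpace Heyting Topology

variable {P : Type} [TopologicalSpace P] [DiscreteTopology P] {W : Type} (w : P → ℤ → W)

/-- the space: a plane for each index -/
abbrev XP (P : Type) : Type := P × ℝ × ℝ

/-- the union of the open strips with labels in `S` -/
def OS (S : Set W) : Set (XP P) := {x | ∃ j : ℤ, w x.1 j ∈ S ∧ (j : ℝ) < x.2.1 ∧ x.2.1 < j + 1}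

/-- the union of the closed strips with labels in `S` -/
def CS (S : Set W) : Set (XP P) := {x | ∃ j : ℤ, w x.1 j ∈ S ∧ (j : ℝ) ≤ x.2.1 ∧ x.2.1 ≤ j + 1}

theorem isOpen_OS (S : Set W) : IsOpen (OS w S) := by
  have : OS w S = ⋃ (p : P), ⋃ (j : ℤ), ⋃ (_ : w p j ∈ S),
      (({p} : Set P) ×ˢ (Set.Ioo (j : ℝ) (j + 1) ×ˢ (Set.univ : Set ℝ))) := by
    ext ⟨p, s, t⟩
    simp only [OS, Set.mem_ofPred_eq, Set.mem_iUnion, Set.mem_prod, Set.mem_singleton_iff,
      Set.mem_Ioo, Set.mem_univ, and_true]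
    constructor
    · rintro ⟨j, h1, h2, h3⟩
      exact ⟨p, j, h1, rfl, h2, h3⟩
    · rintro ⟨p', j, h1, rfl, h2, h3⟩
      exact ⟨j, h1, h2, h3⟩
  rw [this]
  refine isOpen_iUnion fun p => isOpen_iUnion fun j => isOpen_iUnion fun _ => ?_
  exact (isOpen_discrete _).prod (isOpen_Ioo.prod isOpen_univ)

theorem closure_OS (S : Set W) : closure (OS w S) = CS w S := by
  apply subset_antisymm
  · rintro ⟨p, s, t⟩ hx
    rw [mem_closure_iff] at hx
    have ho : IsOpen ((({p} : Set P) ×ˢ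
        (Set.Ioo ((⌈s⌉ : ℝ) - 1) ((⌊s⌋ : ℝ) + 1) ×ˢ (Set.univ : Set ℝ)))) :=
      (isOpen_discrete _).prod (isOpen_Ioo.prod isOpen_univ)
    obtain ⟨⟨p', s', t'⟩, ⟨h1, ⟨h2, h3⟩, -⟩, j, h4, h5, h6⟩ := hx _ ho
      ⟨rfl, ⟨by linarith [Int.ceil_lt_add_one s], Int.lt_floor_add_one s⟩, trivial⟩
    simp only [Set.mem_singleton_iff] at h1 h2 h3 h4 h5 h6
    subst h1
    refine ⟨j, h4, ?_, ?_⟩
    · have : j < ⌊s⌋ + 1 := by
        have : (j : ℝ) < (⌊s⌋ : ℝ) + 1 := h5.trans h3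
        exact_mod_cast this
      have h7 : j ≤ ⌊s⌋ := by omega
      exact (Int.cast_le.2 h7).trans (Int.floor_le s)
    · have : ⌈s⌉ - 1 < j + 1 := by
        have : (⌈s⌉ : ℝ) - 1 < (j : ℝ) + 1 := h2.trans h6
        exact_mod_cast this
      have h7 : ⌈s⌉ ≤ j + 1 := by omega
      have h8 : (⌈s⌉ : ℝ) ≤ (j : ℝ) + 1 := by exact_mod_cast h7
      exact (Int.le_ceil s).trans h8
  · rintro ⟨p, s, t⟩ ⟨j, h1, h2, h3⟩
    have hc : Continuous (fun s' : ℝ => ((p, s', t) : XP P)) := by fun_prop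
    have hs : s ∈ closure (Set.Ioo (j : ℝ) (j + 1)) := by
      rw [closure_Ioo (by linarith)]
      exact ⟨h2, h3⟩
    exact map_mem_closure (f := fun s' : ℝ => ((p, s', t) : XP P)) hc hs
      fun s' hs' => ⟨j, h1, hs'.1, hs'.2⟩

/-- the open set -/
def OO (S : Set W) : Opens (XP P) := ⟨OS w S, isOpen_OS w S⟩

/-- the embedding -/
def emb (S : Set W) : RO (XP P) := reg (OO w S)

theorem closure_emb (S : Set W) : closure (st (emb w S)) = CS w S := by
  rw [emb, closure_reg]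
  exact closure_OS w S

omit [TopologicalSpace P] [DiscreteTopology P] in
theorem CS_union (S : Set W) : CS w S ∪ CS w Sᶜ = Set.univ := by
  rw [Set.eq_univ_iff_forall]
  rintro ⟨p, s, t⟩
  by_cases h : w p ⌊s⌋ ∈ S
  · exact Or.inl ⟨⌊s⌋, h, Int.floor_le s, (Int.lt_floor_add_one s).le⟩
  · exact Or.inr ⟨⌊s⌋, h, Int.floor_le s, (Int.lt_floor_add_one s).le⟩

omit [TopologicalSpace P] [DiscreteTopology P] in
theorem mid_mem {S : Set W} {p : P} {j : ℤ} (h : w p j ∈ S) (t : ℝ) :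
    ((p, (j : ℝ) + 1 / 2, t) : XP P) ∈ OS w S :=
  ⟨j, h, by simp, by simp only; linarith⟩

omit [TopologicalSpace P] [DiscreteTopology P] in
theorem OS_inter (S T : Set W) : OS w S ∩ OS w T = OS w (S ∩ T) := by
  ext ⟨p, s, t⟩
  constructor
  · rintro ⟨⟨j, h1, h2, h3⟩, k, h4, h5, h6⟩
    simp only at h1 h2 h3 h4 h5 h6
    have e1 : ⌊s⌋ = j := Int.floor_eq_iff.2 ⟨h2.le, h3⟩
    have e2 : ⌊s⌋ = k := Int.floor_eq_iff.2 ⟨h5.le, h6⟩
    have : j = k := by omega
    subst this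
    exact ⟨j, ⟨h1, h4⟩, h2, h3⟩
  · rintro ⟨j, ⟨h1, h4⟩, h2, h3⟩
    exact ⟨⟨j, h1, h2, h3⟩, ⟨j, h4, h2, h3⟩⟩

theorem emb_empty : emb w (∅ : Set W) = ⊥ := by
  by_contra h
  obtain ⟨x, hx⟩ := st_ne.1 h
  have := subset_closure hx
  rw [closure_emb] at this
  obtain ⟨j, hj, -⟩ := this
  exact hj

theorem emb_inter (S T : Set W) : emb w (S ∩ T) = emb w S ⊓ emb w T := by
  have : OO w (S ∩ T) = OO w S ⊓ OO w T := by
    apply Opens.ext
    exact (OS_inter w S T).symm
  apply Regular.coe_injective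
  change ((OO w (S ∩ T))ᶜᶜ : Opens (XP P)) = (OO w S)ᶜᶜ ⊓ (OO w T)ᶜᶜ
  rw [this, compl_compl_inf_distrib]

theorem emb_compl (S : Set W) : emb w Sᶜ = (emb w S)ᶜ := by
  have h1 : Disjoint (emb w S) (emb w Sᶜ) := by
    have h := emb_inter w S Sᶜ
    rw [Set.inter_compl_self, emb_empty] at h
    exact disjoint_iff.2 h.symm
  have h2 : Codisjoint (emb w S) (emb w Sᶜ) := by
    rw [codisjoint_iff, ← compl_eq_bot]
    by_contra h
    obtain ⟨x, hx⟩ := st_ne.1 h
    rw [st_compl, closure_sup, closure_emb, closure_emb, CS_union] at hx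
    exact hx trivial
  exact (IsCompl.compl_eq ⟨h1, h2⟩).symm

theorem emb_univ : emb w (Set.univ : Set W) = ⊤ := by
  rw [← Set.compl_empty, emb_compl, emb_empty, compl_bot]

theorem emb_union (S T : Set W) : emb w (S ∪ T) = emb w S ⊔ emb w T := by
  rw [← compl_inj_iff, ← emb_compl, Set.compl_union, emb_inter, emb_compl, emb_compl, compl_sup]
  rfl

theorem emb_le {S T : Set W} (hw : ∀ x : W, ∃ p i, w p i = x) :
    emb w S ≤ emb w T ↔ S ⊆ T := by
  constructor
  · intro h x hx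
    obtain ⟨p, i, rfl⟩ := hw x
    have h1 : ((p, (i : ℝ) + 1 / 2, 0) : XP P) ∈ closure (st (emb w T)) :=
      subset_closure (st_le.1 h (subset_reg (OO w S) (mid_mem w hx 0)))
    rw [closure_emb] at h1
    obtain ⟨j, h2, h3, h4⟩ := h1
    simp only at h2 h3 h4
    have : j = i := by
      have h5 : (j : ℝ) < i + 1 := by linarith
      have h6 : (i : ℝ) < j + 1 := by linarith
      have h7 : j < i + 1 := by exact_mod_cast h5
      have h8 : i < j + 1 := by exact_mod_cast h6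
      omega
    rwa [this] at h2
  · intro h
    have : S = S ∩ T := (Set.inter_eq_left.2 h).symm
    rw [this, emb_inter]
    exact inf_le_right

theorem emb_con {E : W → W → Prop} (hr : ∀ x, E x x) (hs : ∀ x y, E x y → E y x)
    (hw1 : ∀ p i, E (w p i) (w p (i + 1)))
    (hw2 : ∀ x y, E x y → ∃ p i, (w p i = x ∧ w p (i + 1) = y)) (S T : Set W) :
    CX (emb w S) (emb w T) ↔ ∃ x ∈ S, ∃ y ∈ T, E x y := by
  unfold CX
  rw [closure_emb, closure_emb]
  constructor
  · rintro ⟨⟨p, s, t⟩, ⟨j, h1, h2, h3⟩, k, h4, h5, h6⟩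
    simp only at h1 h2 h3 h4 h5 h6
    have a1 : (j : ℝ) ≤ k + 1 := h2.trans h6
    have a2 : (k : ℝ) ≤ j + 1 := h5.trans h3
    have a3 : j ≤ k + 1 := by exact_mod_cast a1
    have a4 : k ≤ j + 1 := by exact_mod_cast a2
    refine ⟨_, h1, _, h4, ?_⟩
    have a5 : j = k + 1 ∨ j = k ∨ k = j + 1 := by omega
    rcases a5 with rfl | rfl | rfl
    · exact hs _ _ (hw1 p k)
    · exact hr _
    · exact hw1 p j
  · rintro ⟨x, hx, y, hy, hxy⟩
    obtain ⟨p, i, rfl, rfl⟩ := hw2 x y hxy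
    refine ⟨(p, (i : ℝ) + 1, 0), ⟨i, hx, by simp, le_rfl⟩, i + 1, hy, ?_, ?_⟩
    · push_cast; exact le_rfl
    · push_cast; simp

open Classical in
/-- the function that measures the unboundedness -/
noncomputable def gg (U : Set W) (x : XP P) : ℝ :=
  (if w x.1 ⌊x.2.1⌋ ∈ U then |Real.sin (Real.pi * x.2.1)| else 0) * |x.2.2|

theorem continuous_gg (U : Set W) : Continuous (gg w U) := by
  classical
  have h1 : ∀ p : P, Continuous (fun s : ℝ =>
      (if w p ⌊s⌋ ∈ U then |Real.sin (Real.pi * s)| else 0 : ℝ)) := by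
    intro p
    rw [continuous_iff_continuousAt]
    intro s
    by_cases hs : (⌊s⌋ : ℝ) = s
    · have h0 : Real.sin (Real.pi * s) = 0 := by
        rw [← hs, mul_comm]
        exact Real.sin_int_mul_pi _
      rw [ContinuousAt]
      have e0 : (if w p ⌊s⌋ ∈ U then |Real.sin (Real.pi * s)| else 0 : ℝ) = 0 := by
        rw [h0]; simp
      rw [e0]
      have hlim : Filter.Tendsto (fun s' : ℝ => |Real.sin (Real.pi * s')|) (𝓝 s) (𝓝 0) := by
        have hc : Continuous (fun s' : ℝ => |Real.sin (Real.pi * s')|) := by fun_prop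
        have := hc.tendsto s
        rwa [h0, abs_zero] at this
      refine squeeze_zero (fun s' => ?_) (fun s' => ?_) hlim
      · split_ifs
        · exact abs_nonneg _
        · exact le_rfl
      · split_ifs
        · exact le_rfl
        · exact abs_nonneg _
    · have hlt : (⌊s⌋ : ℝ) < s := lt_of_le_of_ne (Int.floor_le s) hs
      have hev : (fun s' : ℝ => (if w p ⌊s'⌋ ∈ U then |Real.sin (Real.pi * s')| else 0 : ℝ)) =ᶠ[𝓝 s]
          (fun s' : ℝ => (if w p ⌊s⌋ ∈ U then |Real.sin (Real.pi * s')| else 0 : ℝ)) := by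
        have : Set.Ioo (⌊s⌋ : ℝ) (⌊s⌋ + 1) ∈ 𝓝 s :=
          Ioo_mem_nhds hlt (Int.lt_floor_add_one s)
        filter_upwards [this] with s' hs'
        have : ⌊s'⌋ = ⌊s⌋ := Int.floor_eq_iff.2 ⟨hs'.1.le, hs'.2⟩
        rw [this]
      refine ContinuousAt.congr ?_ hev.symm
      split_ifs
      · have hc : Continuous (fun s' : ℝ => |Real.sin (Real.pi * s')|) := by fun_prop
        exact hc.continuousAt
      · exact continuousAt_const
  have h2 : Continuous (fun x : XP P =>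
      (if w x.1 ⌊x.2.1⌋ ∈ U then |Real.sin (Real.pi * x.2.1)| else 0 : ℝ)) := by
    rw [continuous_iff_continuousAt]
    rintro ⟨p, s, t⟩
    have hev : (fun x : XP P =>
        (if w x.1 ⌊x.2.1⌋ ∈ U then |Real.sin (Real.pi * x.2.1)| else 0 : ℝ)) =ᶠ[𝓝 (p, s, t)]
        (fun x : XP P =>
        (if w p ⌊x.2.1⌋ ∈ U then |Real.sin (Real.pi * x.2.1)| else 0 : ℝ)) := by
      have : (({p} : Set P) ×ˢ (Set.univ : Set (ℝ × ℝ))) ∈ 𝓝 ((p, s, t) : XP P) :=
        ((isOpen_discrete _).prod isOpen_univ).mem_nhds ⟨rfl, trivial⟩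
      filter_upwards [this] with x hx
      have : x.1 = p := hx.1
      rw [this]
    refine ContinuousAt.congr ?_ hev.symm
    exact ((h1 p).comp (continuous_fst.comp continuous_snd)).continuousAt
  unfold gg
  exact h2.mul (continuous_abs.comp (continuous_snd.comp continuous_snd))

theorem emb_bd (hw : ∀ x : W, ∃ p i, w p i = x) (U S : Set W) :
    BX (gg w U) (emb w S) ↔ ∀ x ∈ S, x ∉ U := by
  constructor
  · rintro ⟨M, hM⟩ x hx hxU
    obtain ⟨p, i, rfl⟩ := hw x
    have h1 := hM _ (subset_reg (OO w S) (mid_mem w hx (|M| + 1)))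
    have e1 : ⌊(i : ℝ) + 1 / 2⌋ = i := by
      rw [Int.floor_eq_iff]
      constructor
      · linarith
      · linarith
    have e2 : |Real.sin (Real.pi * ((i : ℝ) + 1 / 2))| = 1 := by
      have : Real.pi * ((i : ℝ) + 1 / 2) = Real.pi / 2 + i * Real.pi := by ring
      rw [this, Real.sin_add_int_mul_pi, Real.sin_pi_div_two, mul_one]
      simp [abs_zpow]
    simp only [gg, e1, hxU, if_true, e2, one_mul] at h1
    have := abs_nonneg M
    rw [abs_of_pos (by linarith)] at h1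
    linarith [le_abs_self M]
  · intro h
    refine ⟨0, fun x hx => ?_⟩
    have h1 : ∀ y ∈ OS w S, gg w U y ≤ 0 := by
      rintro ⟨p, s, t⟩ ⟨j, h1, h2, h3⟩
      simp only at h1 h2 h3
      have e1 : ⌊s⌋ = j := Int.floor_eq_iff.2 ⟨h2.le, h3⟩
      simp [gg, e1, h _ h1]
    have h2 : x ∈ closure (OS w S) := by
      rw [closure_OS, ← closure_emb]
      exact subset_closure hx
    exact bx_closure (continuous_gg w U) h1 x h2

end Pool.Agent.R620.RB
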