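import Pool.Agent.R620.RB.Defs

/-!
# Local contact algebras of regular open sets
-/

set_option autoImplicit false

namespace Pool.Agent.R620.RB

open TopologicalSpace Heyting Topology

variable {X : Type} [TopologicalSpace X]

abbrev RO (X : Type) [TopologicalSpace X] : Type := Heyting.Regular (Opens X)

/-- the set of a regular open set -/
def st (a : RO X) : Set X := ((a : Opens X) : Set X)

theorem isOpen_st (a : RO X) : IsOpen (st a) := (a : Opens X).2

theorem coe_hcompl (U : Opens X) : ((Uᶜ : Opens X) : Set X) = (closure (U : Set X))ᶜ := by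
  apply subset_antisymm
  · intro x hx hcl
    rw [mem_closure_iff] at hcl
    obtain ⟨y, hy1, hy2⟩ := hcl _ (Uᶜ : Opens X).2 hx
    have h := (disjoint_compl_right (a := U))
    rw [disjoint_iff] at h
    have : y ∈ (U ⊓ Uᶜ : Opens X) := ⟨hy2, hy1⟩
    rw [h] at this
    exact this
  · let V : Opens X := ⟨(closure (U : Set X))ᶜ, isClosed_closure.isOpen_compl⟩
    have h : V ≤ Uᶜ := by
      rw [le_compl_iff_disjoint_left, disjoint_iff]
      ext x
      constructor
      · rintro ⟨h1, h2⟩
        exact absurd (subset_closure h1) h2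
      · intro h; exact h.elim
    exact h

theorem closure_cc (U : Opens X) :
    closure (((Uᶜᶜ : Opens X)) : Set X) = closure (U : Set X) := by
  apply subset_antisymm
  · apply closure_minimal _ isClosed_closure
    rw [coe_hcompl, coe_hcompl]
    intro x hx
    by_contra hcon
    exact hx (subset_closure hcon)
  · apply closure_mono
    exact (le_compl_compl (a := U))

/-- the regular open set of an open set -/
def reg (U : Opens X) : RO X := Regular.toRegular U

theorem st_reg (U : Opens X) : st (reg U) = ((Uᶜᶜ : Opens X) : Set X) := rfl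

theorem closure_reg (U : Opens X) : closure (st (reg U)) = closure (U : Set X) := by
  rw [st_reg, closure_cc]

theorem subset_reg (U : Opens X) : (U : Set X) ⊆ st (reg U) := by
  rw [st_reg]
  exact (le_compl_compl (a := U))

theorem st_le {a b : RO X} : a ≤ b ↔ st a ⊆ st b := by
  rw [← Regular.coe_le_coe]; rfl

theorem st_ne {a : RO X} : a ≠ ⊥ ↔ (st a).Nonempty := by
  rw [Set.nonempty_iff_ne_empty]
  constructor
  · intro h e
    apply h
    apply le_bot_iff.1
    rw [st_le, e]
    exact Set.empty_subset _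
  · rintro h rfl
    apply h
    rfl

theorem st_inf (a b : RO X) : st (a ⊓ b) = st a ∩ st b := rfl

theorem closure_sup (a b : RO X) : closure (st (a ⊔ b)) = closure (st a) ∪ closure (st b) := by
  have : st (a ⊔ b) = ((((a : Opens X) ⊔ (b : Opens X))ᶜᶜ : Opens X) : Set X) := rfl
  rw [this, closure_cc, Opens.coe_sup, closure_union]
  rfl

theorem st_compl (a : RO X) : st aᶜ = (closure (st a))ᶜ := coe_hcompl _

/-- the contact -/
def CX (a b : RO X) : Prop := (closure (st a) ∩ closure (st b)).Nonempty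

/-- the ideal of the bounded elements -/
def BX (g : X → ℝ) (a : RO X) : Prop := ∃ M, ∀ x ∈ st a, g x ≤ M

theorem bx_closure {g : X → ℝ} (hg : Continuous g) {a : Set X} {M : ℝ}
    (h : ∀ x ∈ a, g x ≤ M) : ∀ x ∈ closure a, g x ≤ M := by
  have : closure a ⊆ {x | g x ≤ M} := closure_minimal h (isClosed_le hg continuous_const)
  exact this

theorem isLCA_RO {g : X → ℝ} (hg : Continuous g) : IsLCA (CX (X := X)) (BX g) where
  con_ne a b h := by
    obtain ⟨x, h1, h2⟩ := h
    exact ⟨st_ne.2 (closure_nonempty_iff.1 ⟨x, h1⟩), st_ne.2 (closure_nonempty_iff.1 ⟨x, h2⟩)⟩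
  con_symm a b h := by
    unfold CX at *
    rwa [Set.inter_comm]
  con_sup a b c := by
    unfold CX
    rw [closure_sup, Set.inter_union_distrib_left, Set.union_nonempty]
  con_of_inf a b h := by
    obtain ⟨x, h1, h2⟩ := st_ne.1 h
    exact ⟨x, subset_closure h1, subset_closure h2⟩
  bd_bot := ⟨0, fun x hx => (st_ne.2 ⟨x, hx⟩ rfl).elim⟩
  bd_mono a b h := by
    rintro ⟨M, hM⟩
    exact ⟨M, fun x hx => hM x (st_le.1 h hx)⟩
  bd_sup a b := by
    rintro ⟨M, hM⟩ ⟨N, hN⟩
    refine ⟨max M N, fun x hx => ?_⟩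
    have hx' : x ∈ closure (st a) ∪ closure (st b) := by
      rw [← closure_sup]; exact subset_closure hx
    rcases hx' with h | h
    · exact (bx_closure hg hM x h).trans (le_max_left _ _)
    · exact (bx_closure hg hN x h).trans (le_max_right _ _)
  bound1 a b := by
    rintro ⟨x, h1, h2⟩
    let N : Opens X := ⟨{y | g y < g x + 1}, isOpen_lt hg continuous_const⟩
    have hx : x ∈ closure ((((b : Opens X) ⊓ N) : Opens X) : Set X) := by
      have := mem_closure_iff.1 h2
      rw [mem_closure_iff]
      intro o ho hxo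
      obtain ⟨y, hy1, hy2⟩ := this (o ∩ (N : Set X)) (ho.inter N.2) ⟨hxo, by
        change g x < g x + 1
        linarith⟩
      exact ⟨y, hy1.1, hy2, hy1.2⟩
    refine ⟨reg ((b : Opens X) ⊓ N), ⟨g x + 1, fun y hy => ?_⟩, ?_, ?_⟩
    · have : y ∈ closure ((((b : Opens X) ⊓ N) : Opens X) : Set X) := by
        rw [← closure_reg]; exact subset_closure hy
      exact bx_closure hg (a := ((((b : Opens X) ⊓ N) : Opens X) : Set X))
        (fun z hz => le_of_lt hz.2) y this
    · have : reg ((b : Opens X) ⊓ N) ≤ reg (b : Opens X) :=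
        Regular.toRegular.monotone inf_le_left
      refine this.trans ?_
      exact (Regular.toRegular_coe b).le
    · exact ⟨x, h1, by rw [closure_reg]; exact hx⟩
  bound2 a := by
    rintro ⟨M, hM⟩
    let N : Opens X := ⟨{y | g y < M + 1}, isOpen_lt hg continuous_const⟩
    refine ⟨reg N, ⟨M + 1, fun y hy => ?_⟩, ?_⟩
    · have : y ∈ closure (N : Set X) := by
        rw [← closure_reg]; exact subset_closure hy
      exact bx_closure hg (a := (N : Set X)) (fun z hz => le_of_lt hz) y this
    · rintro ⟨x, h1, h2⟩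
      have h3 := bx_closure hg hM x h1
      have h4 : closure (st (reg N)ᶜ) ⊆ (N : Set X)ᶜ := by
        apply closure_minimal _ N.2.isClosed_compl
        rw [st_compl, closure_reg]
        exact Set.compl_subset_compl.2 subset_closure
      apply h4 h2
      change g x < M + 1
      linarith

theorem ext_RO [RegularSpace X] (a : RO X) (ha : a ≠ ⊤) : ∃ p : RO X, p ≠ ⊥ ∧ ¬ CX a p := by
  have h1 : ∃ x, x ∉ closure (st a) := by
    by_contra hcon
    push Not at hcon
    apply ha
    have : aᶜ = ⊥ := by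
      by_contra hne
      obtain ⟨x, hx⟩ := st_ne.1 hne
      rw [st_compl] at hx
      exact hx (hcon x)
    exact compl_eq_bot.1 this
  obtain ⟨x, hx⟩ := h1
  have h2 : (closure (st a))ᶜ ∈ 𝓝 x := isClosed_closure.isOpen_compl.mem_nhds hx
  obtain ⟨V, hV1, hV2, hV3⟩ := exists_mem_nhds_isClosed_subset h2
  let N : Opens X := ⟨interior V, isOpen_interior⟩
  refine ⟨reg N, ?_, ?_⟩
  · rw [st_ne]
    exact ⟨x, subset_reg N (mem_interior_iff_mem_nhds.2 hV1)⟩
  · rintro ⟨y, h3, h4⟩
    rw [closure_reg] at h4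
    exact hV3 (closure_minimal interior_subset hV2 h4) h3

theorem nor_RO [NormalSpace X] (a b : RO X) (h : ¬ CX a b) :
    ∃ p : RO X, ¬ CX a p ∧ ¬ CX pᶜ b := by
  have h1 : closure (st b) ⊆ (closure (st a))ᶜ := by
    intro x hx hx'
    exact h ⟨x, hx', hx⟩
  obtain ⟨V, hV1, hV2, hV3⟩ := normal_exists_closure_subset isClosed_closure
    isClosed_closure.isOpen_compl h1
  let N : Opens X := ⟨V, hV1⟩
  refine ⟨reg N, ?_, ?_⟩
  · rintro ⟨y, h3, h4⟩
    rw [closure_reg] at h4
    exact hV3 h4 h3
  · rintro ⟨y, h3, h4⟩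
    have h5 : closure (st (reg N)ᶜ) ⊆ (V : Set X)ᶜ := by
      apply closure_minimal _ hV1.isClosed_compl
      rw [st_compl, closure_reg]
      exact Set.compl_subset_compl.2 subset_closure
    exact h5 h3 (hV2 h4)

theorem con_RO [PreconnectedSpace X] (a : RO X) (h0 : a ≠ ⊥) (h1 : a ≠ ⊤) : CX a aᶜ := by
  have h2 : aᶜ ≠ ⊥ := fun e => h1 (compl_eq_bot.1 e)
  obtain ⟨x, hx⟩ := st_ne.1 h0
  obtain ⟨y, hy⟩ := st_ne.1 h2
  have h3 : closure (st a) ∪ closure (st aᶜ) = Set.univ := by
    rw [← closure_sup, sup_compl_eq_top]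
    have : st (⊤ : RO X) = Set.univ := rfl
    rw [this, closure_univ]
  have := isPreconnected_closed_iff.1 (isPreconnected_univ (α := X)) _ _ isClosed_closure
    isClosed_closure h3.ge ⟨x, trivial, subset_closure hx⟩ ⟨y, trivial, subset_closure hy⟩
  rwa [Set.univ_inter] at this

end Pool.Agent.R620.RB
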